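import Pool.Agent.R447.HN.Mat

/-!
# Completeness
-/

set_option linter.unusedSectionVars false

namespace Pool.R447.HN

open Matrix

/-- `x ∈ {0, 1, -1}`. -/
def U (x : ℝ) : Prop := x = 0 ∨ x = 1 ∨ x = -1

theorem U.neg {x : ℝ} (h : U x) : U (-x) := by
  rcases h with rfl | rfl | rfl <;> simp [U]

theorem U_neg_iff {x : ℝ} : U (-x) ↔ U x := ⟨fun h => by simpa using h.neg, U.neg⟩

theorem U_of_tu {R' E' : Type*} {M : Matrix R' E' ℝ} (h : M.IsTotallyUnimodular) {k : ℕ}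
    (f : Fin k → R') (g : Fin k → E') : U (M.submatrix f g).det := by
  rw [isTotallyUnimodular_iff] at h
  obtain ⟨s, hs⟩ := h k f g
  rw [← hs]
  cases s
  · left; simp
  · right; right; simp
  · right; left; simp

theorem tu1 {R' E' : Type*} {M : Matrix R' E' ℝ} (h : M.IsTotallyUnimodular) (r : R') (c : E') :
    U (M r c) := by
  have := U_of_tu h ![r] ![c]
  rwa [Matrix.det_fin_one] at this

theorem tu2 {R' E' : Type*} {M : Matrix R' E' ℝ} (h : M.IsTotallyUnimodular) (r1 r2 : R')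
    (c1 c2 : E') : U (M r1 c1 * M r2 c2 - M r1 c2 * M r2 c1) := by
  have := U_of_tu h ![r1, r2] ![c1, c2]
  rwa [Matrix.det_fin_two] at this

/-- 3×3 determinant. -/
def d3 {R' E' : Type*} (M : Matrix R' E' ℝ) (r1 r2 r3 : R') (c1 c2 c3 : E') : ℝ :=
  M r1 c1 * M r2 c2 * M r3 c3 - M r1 c1 * M r2 c3 * M r3 c2 - M r1 c2 * M r2 c1 * M r3 c3
    + M r1 c2 * M r2 c3 * M r3 c1 + M r1 c3 * M r2 c1 * M r3 c2 - M r1 c3 * M r2 c2 * M r3 c1

theorem tu3 {R' E' : Type*} {M : Matrix R' E' ℝ} (h : M.IsTotallyUnimodular) (r1 r2 r3 : R')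
    (c1 c2 c3 : E') : U (d3 M r1 r2 r3 c1 c2 c3) := by
  have := U_of_tu h ![r1, r2, r3] ![c1, c2, c3]
  rwa [Matrix.det_fin_three] at this

theorem det4 (N : Matrix (Fin 4) (Fin 4) ℝ) : N.det =
    N 0 0 * (N 1 1 * N 2 2 * N 3 3 - N 1 1 * N 2 3 * N 3 2 - N 1 2 * N 2 1 * N 3 3
      + N 1 2 * N 2 3 * N 3 1 + N 1 3 * N 2 1 * N 3 2 - N 1 3 * N 2 2 * N 3 1)
    - N 0 1 * (N 1 0 * N 2 2 * N 3 3 - N 1 0 * N 2 3 * N 3 2 - N 1 2 * N 2 0 * N 3 3
      + N 1 2 * N 2 3 * N 3 0 + N 1 3 * N 2 0 * N 3 2 - N 1 3 * N 2 2 * N 3 0)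
    + N 0 2 * (N 1 0 * N 2 1 * N 3 3 - N 1 0 * N 2 3 * N 3 1 - N 1 1 * N 2 0 * N 3 3
      + N 1 1 * N 2 3 * N 3 0 + N 1 3 * N 2 0 * N 3 1 - N 1 3 * N 2 1 * N 3 0)
    - N 0 3 * (N 1 0 * N 2 1 * N 3 2 - N 1 0 * N 2 2 * N 3 1 - N 1 1 * N 2 0 * N 3 2
      + N 1 1 * N 2 2 * N 3 0 + N 1 2 * N 2 0 * N 3 1 - N 1 2 * N 2 1 * N 3 0) := by
  rw [Matrix.det_succ_row_zero]
  simp only [Fin.sum_univ_four, Matrix.det_fin_three, Matrix.submatrix_apply]
  simp [Fin.succAbove, Fin.succ, Fin.castSucc, Fin.lt_def]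
  ring

theorem tu4 {R' E' : Type*} {M : Matrix R' E' ℝ} (h : M.IsTotallyUnimodular)
    (r1 r2 r3 r4 : R') (c1 c2 c3 c4 : E') (h1 : M r1 c3 = 0) (h2 : M r2 c3 = 0)
    {η : ℝ} (hη : η = 1 ∨ η = -1) (h3 : M r3 c3 = η) (h4 : M r4 c3 = -η) :
    U (d3 M r1 r2 r3 c1 c2 c4 + d3 M r1 r2 r4 c1 c2 c4) := by
  have := U_of_tu h ![r1, r2, r3, r4] ![c1, c2, c3, c4]
  rw [det4] at this
  simp only [Matrix.submatrix_apply, Matrix.cons_val_zero, Matrix.cons_val_one, Matrix.cons_val,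
    h1, h2, h3, h4] at this
  rcases hη with rfl | rfl
  · convert this using 1
    simp only [d3]; ring
  · rw [← U_neg_iff]
    convert this using 1
    simp only [d3]; ring

/-- The abstract analysis inside a gadget. -/
theorem gadget_x {V : Type*} [DecidableEq V] {a b c : V} (hab : a ≠ b) (hac : a ≠ c) (hbc : b ≠ c)
    (x e0 e1 e2 : V → ℝ)
    (h0 : ∀ v, e0 v = (if v = b then 1 else 0) - (if v = c then 1 else 0))
    (h1 : ∀ v, e1 v = (if v = c then 1 else 0) - (if v = a then 1 else 0))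
    (h2 : ∀ v, e2 v = (if v = a then 1 else 0) - (if v = b then 1 else 0))
    (X : ∀ v, U (x v))
    (X1 : ∀ v, U (x v + e1 v)) (X2 : ∀ v, U (x v + e2 v))
    (Y1 : ∀ u v, u ≠ v → U ((x u + e1 u) + (x v + e1 v)))
    (Y2 : ∀ u v, u ≠ v → U ((x u + e2 u) + (x v + e2 v))) :
    (∀ v, x v = 0) ∨ (∀ v, x v = e0 v) := by
  have e0a : e0 a = 0 := by rw [h0]; simp [hab, hac]
  have e0b : e0 b = 1 := by rw [h0]; simp [hbc]
  have e0c : e0 c = -1 := by rw [h0]; simp [hbc.symm]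
  have e1a : e1 a = -1 := by rw [h1]; simp [hac]
  have e1b : e1 b = 0 := by rw [h1]; simp [hbc, hab.symm]
  have e1c : e1 c = 1 := by rw [h1]; simp [hac.symm]
  have e2a : e2 a = 1 := by rw [h2]; simp [hab]
  have e2b : e2 b = -1 := by rw [h2]; simp [hab.symm]
  have e2c : e2 c = 0 := by rw [h2]; simp [hac.symm, hbc.symm]
  have xa : x a = 0 := by
    have ha1 := X1 a
    have ha2 := X2 a
    rw [e1a] at ha1
    rw [e2a] at ha2
    rcases X a with h | h | h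
    · exact h
    · rw [h] at ha2; norm_num [U] at ha2
    · rw [h] at ha1; norm_num [U] at ha1
  have xb : x b = 0 ∨ x b = 1 := by
    have hb := X2 b
    rw [e2b] at hb
    rcases X b with h | h | h
    · exact Or.inl h
    · exact Or.inr h
    · rw [h] at hb; norm_num [U] at hb
  have xc : x c = 0 ∨ x c = -1 := by
    have hc := X1 c
    rw [e1c] at hc
    rcases X c with h | h | h
    · exact Or.inl h
    · rw [h] at hc; norm_num [U] at hc
    · exact Or.inr h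
  have xo : ∀ v, v ≠ a → v ≠ b → v ≠ c → x v = 0 := by
    intro v va vb vc
    have g1 := Y1 v a va
    have g2 := Y2 v a va
    rw [e1a, xa, h1 v] at g1
    rw [e2a, xa, h2 v] at g2
    simp only [va, vb, vc, if_false, sub_zero, add_zero, zero_add] at g1 g2
    rcases X v with h | h | h
    · exact h
    · rw [h] at g2; norm_num [U] at g2
    · rw [h] at g1; norm_num [U] at g1
  have g1 := Y1 b c hbc
  have g2 := Y2 b c hbc
  rw [e1b, e1c] at g1
  rw [e2b, e2c] at g2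
  rcases xb with hb | hb <;> rcases xc with hc | hc
  · left
    intro v
    by_cases va : v = a
    · rw [va, xa]
    by_cases vb : v = b
    · rw [vb, hb]
    by_cases vc : v = c
    · rw [vc, hc]
    exact xo v va vb vc
  · rw [hb, hc] at g2; norm_num [U] at g2
  · rw [hb, hc] at g1; norm_num [U] at g1
  · right
    intro v
    by_cases va : v = a
    · rw [va, xa, e0a]
    by_cases vb : v = b
    · rw [vb, hb, e0b]
    by_cases vc : v = c
    · rw [vc, hc, e0c]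
    rw [xo v va vb vc, h0]
    simp [vb, vc]

end Pool.R447.HN
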