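import Pool.Agent.R447.HN.Comp

/-!
# Completeness of the matrices
-/

set_option linter.unusedSectionVars false

namespace Pool.R447.HN

open Matrix

variable {m : ℕ}

/-- The vector `e_i` of a gadget. -/
def ei (t : Fin m) (i : Fin 3) (v : Vx m) : ℝ :=
  (if v = (t, i + 1) then 1 else 0) - (if v = (t, i + 2) then 1 else 0)

/-- extended matrix -/
noncomputable abbrev Ext (b : Rw m → ℝ) : Matrix (Rw m) (El m ⊕ Unit) ℝ :=
  Matrix.fromCols (Am m) (Matrix.replicateCol Unit b)

abbrev cf (v : Vx m) : El m ⊕ Unit := Sum.inl (Sum.inr (Sum.inr (Sum.inl v)))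
abbrev cg (v : Vx m) : El m ⊕ Unit := Sum.inl (Sum.inr (Sum.inr (Sum.inr v)))
abbrev ce (p : Ed m) : El m ⊕ Unit := Sum.inl (Sum.inr (Sum.inl p))
abbrev cb : El m ⊕ Unit := Sum.inr ()

theorem Ext_b (b : Rw m → ℝ) (r : Rw m) : Ext b r cb = b r := rfl

theorem Ext_f_l (b : Rw m → ℝ) (u v : Vx m) : Ext b (Sum.inl u) (cf v) = 0 := by
  simp [Am, Az, δ]

theorem Ext_f_0 (b : Rw m → ℝ) (t : Fin m) (v : Vx m) :
    Ext b (Sum.inr (t, false)) (cf v) = if t = v.1 then (pf v.2 : ℝ) else 0 := by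
  simp [Am, Az, δ]

theorem Ext_f_1 (b : Rw m → ℝ) (t : Fin m) (v : Vx m) :
    Ext b (Sum.inr (t, true)) (cf v) = if t = v.1 then (qf v.2 : ℝ) else 0 := by
  simp [Am, Az, δ]

theorem Ext_g_l (b : Rw m → ℝ) (u v : Vx m) : Ext b (Sum.inl u) (cg v) = - ei v.1 v.2 u := by
  simp [Am, Az, δ, ei]

theorem Ext_g_0 (b : Rw m → ℝ) (t : Fin m) (v : Vx m) :
    Ext b (Sum.inr (t, false)) (cg v) = if t = v.1 then -(pf v.2 : ℝ) else 0 := by
  by_cases h : t = v.1 <;> simp [Am, Az, δ, h]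

theorem Ext_g_1 (b : Rw m → ℝ) (t : Fin m) (v : Vx m) :
    Ext b (Sum.inr (t, true)) (cg v) = if t = v.1 then -(qf v.2 : ℝ) else 0 := by
  by_cases h : t = v.1 <;> simp [Am, Az, δ, h]

theorem Ext_e_r (b : Rw m → ℝ) (q : Fin m × Bool) (p : Ed m) :
    Ext b (Sum.inr q) (ce p) = 0 := by
  simp [Am, Az, δ]

theorem Ext_e_1 (b : Rw m → ℝ) (p : Ed m) : Ext b (Sum.inl p.1.1) (ce p) = 1 := by
  simp [Am, Az, δ, p.ne]

theorem Ext_e_2 (b : Rw m → ℝ) (p : Ed m) : Ext b (Sum.inl p.1.2) (ce p) = -1 := by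
  simp [Am, Az, δ, p.ne.symm]

theorem kap : ∀ i : Fin 3, pf (i+1) * qf i - pf i * qf (i+1) = -1 := by decide
theorem kap2 : ∀ i : Fin 3, pf (i+2) * qf (i+1) - pf (i+1) * qf (i+2) = -1 := by decide
theorem kap3 : ∀ i : Fin 3, pf i * qf (i+2) - pf (i+2) * qf i = -1 := by decide

theorem kapR (i : Fin 3) : (pf (i+1) : ℝ) * qf i - pf i * qf (i+1) = -1 := by
  exact_mod_cast kap i
theorem kap2R (i : Fin 3) : (pf (i+2) : ℝ) * qf (i+1) - pf (i+1) * qf (i+2) = -1 := by
  exact_mod_cast kap2 i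
theorem kap3R (i : Fin 3) : (pf i : ℝ) * qf (i+2) - pf (i+2) * qf i = -1 := by
  exact_mod_cast kap3 i

section gadget

variable {b : Rw m → ℝ} {t : Fin m} {i : Fin 3} {s : ℝ}

theorem d3_val1 (h0 : b (Sum.inr (t, false)) = s * pf i) (h1 : b (Sum.inr (t, true)) = s * qf i)
    (u : Vx m) :
    d3 (Ext b) (Sum.inr (t, false)) (Sum.inr (t, true)) (Sum.inl u) (cg (t, i+1)) (cf (t, i+2)) cb
      = -(b (Sum.inl u) + s * ei t (i+1) u) := by
  simp only [d3, Ext_b, Ext_f_l, Ext_f_0, Ext_f_1, Ext_g_l, Ext_g_0, Ext_g_1, h0, h1, if_true]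
  linear_combination (b (Sum.inl u)) * kap2R i + (s * ei t (i+1) u) * kap3R i

theorem d3_val2 (h0 : b (Sum.inr (t, false)) = s * pf i) (h1 : b (Sum.inr (t, true)) = s * qf i)
    (u : Vx m) :
    d3 (Ext b) (Sum.inr (t, false)) (Sum.inr (t, true)) (Sum.inl u) (cg (t, i+2)) (cf (t, i+1)) cb
      = (b (Sum.inl u) + s * ei t (i+2) u) := by
  simp only [d3, Ext_b, Ext_f_l, Ext_f_0, Ext_f_1, Ext_g_l, Ext_g_0, Ext_g_1, h0, h1, if_true]
  linear_combination -(b (Sum.inl u)) * kap2R i - (s * ei t (i+2) u) * kapR i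

theorem pair_of_tu (hTU : (Ext b).IsTotallyUnimodular) (c1 c2 : El m ⊕ Unit) {u v : Vx m}
    (huv : u ≠ v) :
    U (d3 (Ext b) (Sum.inr (t, false)) (Sum.inr (t, true)) (Sum.inl u) c1 c2 cb
      + d3 (Ext b) (Sum.inr (t, false)) (Sum.inr (t, true)) (Sum.inl v) c1 c2 cb) := by
  obtain ⟨p, ⟨rfl, rfl⟩ | ⟨rfl, rfl⟩⟩ := exists_edge huv
  · exact tu4 hTU _ _ _ _ c1 c2 (ce p) cb (Ext_e_r b _ p) (Ext_e_r b _ p) (Or.inl rfl)
      (Ext_e_1 b p) (Ext_e_2 b p)
  · exact tu4 hTU _ _ _ _ c1 c2 (ce p) cb (Ext_e_r b _ p) (Ext_e_r b _ p) (Or.inr rfl)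
      (Ext_e_2 b p) (by rw [neg_neg]; exact Ext_e_1 b p)

theorem Us {s x e : ℝ} (hs : s = 1 ∨ s = -1) (h : U (x + s * e)) : U (s * x + e) := by
  rcases hs with rfl | rfl
  · simpa using h
  · rw [← U_neg_iff]
    convert h using 1
    ring

theorem Us2 {s x e y f : ℝ} (hs : s = 1 ∨ s = -1) (h : U ((x + s * e) + (y + s * f))) :
    U ((s * x + e) + (s * y + f)) := by
  rcases hs with rfl | rfl
  · simpa using h
  · rw [← U_neg_iff]
    convert h using 1
    ring

theorem fin3a : ∀ i : Fin 3, i + 1 + 1 = i + 2 := by decide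
theorem fin3b : ∀ i : Fin 3, i + 1 + 2 = i := by decide
theorem fin3c : ∀ i : Fin 3, i + 2 + 1 = i := by decide
theorem fin3d : ∀ i : Fin 3, i + 2 + 2 = i + 1 := by decide
theorem fin3ab : ∀ i : Fin 3, i ≠ i + 1 := by decide
theorem fin3ac : ∀ i : Fin 3, i ≠ i + 2 := by decide
theorem fin3bc : ∀ i : Fin 3, i + 1 ≠ i + 2 := by decide

theorem gadget_val (hTU : (Ext b).IsTotallyUnimodular) (hs : s = 1 ∨ s = -1)
    (h0 : b (Sum.inr (t, false)) = s * pf i) (h1 : b (Sum.inr (t, true)) = s * qf i) :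
    (∀ v, s * b (Sum.inl v) = 0) ∨ (∀ v, s * b (Sum.inl v) = ei t i v) := by
  apply gadget_x (V := Vx m) (a := (t, i)) (b := (t, i+1)) (c := (t, i+2))
    (by simp [fin3ab]) (by simp [fin3ac]) (by simp [fin3bc])
    (fun v => s * b (Sum.inl v)) (ei t i) (ei t (i+1)) (ei t (i+2))
  · intro v; rfl
  · intro v
    simp only [ei, fin3a, fin3b]
  · intro v
    simp only [ei, fin3c, fin3d]
  · intro v
    have := tu1 hTU (Sum.inl v) cb
    rw [Ext_b] at this
    rcases hs with rfl | rfl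
    · simpa using this
    · simpa using this.neg
  · intro v
    have := tu3 hTU (Sum.inr (t, false)) (Sum.inr (t, true)) (Sum.inl v) (cg (t, i+1))
      (cf (t, i+2)) cb
    rw [d3_val1 h0 h1, U_neg_iff] at this
    exact Us hs this
  · intro v
    have := tu3 hTU (Sum.inr (t, false)) (Sum.inr (t, true)) (Sum.inl v) (cg (t, i+2))
      (cf (t, i+1)) cb
    rw [d3_val2 h0 h1] at this
    exact Us hs this
  · intro u v huv
    have := pair_of_tu (t := t) hTU (cg (t, i+1)) (cf (t, i+2)) huv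
    rw [d3_val1 h0 h1, d3_val1 h0 h1, ← U_neg_iff] at this
    apply Us2 hs
    convert this using 1
    ring
  · intro u v huv
    have := pair_of_tu (t := t) hTU (cg (t, i+2)) (cf (t, i+1)) huv
    rw [d3_val2 h0 h1, d3_val2 h0 h1] at this
    exact Us2 hs this

end gadget

/-- The gadget part of an appended column. -/
theorem gadget_y {b : Rw m → ℝ} (hTU : (Ext b).IsTotallyUnimodular) (t : Fin m) :
    (b (Sum.inr (t, false)) = 0 ∧ b (Sum.inr (t, true)) = 0) ∨
    ∃ i : Fin 3, ∃ s : ℝ, (s = 1 ∨ s = -1) ∧ b (Sum.inr (t, false)) = s * pf i ∧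
      b (Sum.inr (t, true)) = s * qf i := by
  have a0 := tu1 hTU (Sum.inr (t, false)) cb
  have a1 := tu1 hTU (Sum.inr (t, true)) cb
  have a2 := tu2 hTU (Sum.inr (t, false)) (Sum.inr (t, true)) (cf (t, 2)) cb
  rw [Ext_b] at a0 a1
  simp only [Ext_b, Ext_f_0, Ext_f_1, if_true] at a2
  have p2 : (pf 2 : ℝ) = -1 := by simp [pf]
  have q2 : (qf 2 : ℝ) = -1 := by simp [qf]
  rw [p2, q2] at a2
  rcases a0 with h0 | h0 | h0 <;> rcases a1 with h1 | h1 | h1
  · exact Or.inl ⟨h0, h1⟩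
  · exact Or.inr ⟨1, 1, Or.inl rfl, by rw [h0]; simp [pf], by rw [h1]; simp [qf]⟩
  · exact Or.inr ⟨1, -1, Or.inr rfl, by rw [h0]; simp [pf], by rw [h1]; simp [qf]⟩
  · exact Or.inr ⟨0, 1, Or.inl rfl, by rw [h0]; simp [pf], by rw [h1]; simp [qf]⟩
  · exact Or.inr ⟨2, -1, Or.inr rfl, by rw [h0]; simp [pf], by rw [h1]; simp [qf]⟩
  · rw [h0, h1] at a2; norm_num [U] at a2
  · exact Or.inr ⟨0, -1, Or.inr rfl, by rw [h0]; simp [pf], by rw [h1]; simp [qf]⟩
  · rw [h0, h1] at a2; norm_num [U] at a2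
  · exact Or.inr ⟨2, 1, Or.inl rfl, by rw [h0]; simp [pf], by rw [h1]; simp [qf]⟩

/-- Rows where `f_i` does not vanish. -/
theorem exists_row (i : Fin 3) : ∃ c : Bool, ∃ ρ : ℝ, (ρ = 1 ∨ ρ = -1) ∧
    (∀ (b : Rw m → ℝ) (t : Fin m) (s : ℝ), b (Sum.inr (t, false)) = s * pf i →
      b (Sum.inr (t, true)) = s * qf i → b (Sum.inr (t, c)) = s * ρ) ∧
    (∀ (b : Rw m → ℝ) (t t' : Fin m), Ext b (Sum.inr (t', c)) (cg (t, i)) =
      if t' = t then -ρ else 0) := by
  fin_cases i
  · refine ⟨false, 1, Or.inl rfl, fun b t s h0 _ => by rw [h0]; simp [pf], fun b t t' => ?_⟩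
    rw [Ext_g_0]; simp [pf]
  · refine ⟨true, 1, Or.inl rfl, fun b t s _ h1 => by rw [h1]; simp [qf], fun b t t' => ?_⟩
    rw [Ext_g_1]; simp [qf]
  · refine ⟨false, -1, Or.inr rfl, fun b t s h0 _ => by rw [h0]; simp [pf], fun b t t' => ?_⟩
    rw [Ext_g_0]; simp [pf]

theorem exists_vert (t : Fin m) (i : Fin 3) {s : ℝ} (hs : s = 1 ∨ s = -1) :
    ∃ u : Vx m, u.1 = t ∧ ei t i u = s := by
  rcases hs with rfl | rfl
  · exact ⟨(t, i+1), rfl, by simp [ei, fin3bc]⟩
  · exact ⟨(t, i+2), rfl, by simp [ei, (fin3bc i).symm]⟩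

theorem ei_other {t : Fin m} {i : Fin 3} {u : Vx m} (h : u.1 ≠ t) : ei t i u = 0 := by
  have h1 : u ≠ (t, i+1) := by rintro rfl; exact h rfl
  have h2 : u ≠ (t, i+2) := by rintro rfl; exact h rfl
  simp [ei, h1, h2]

/-- At most one gadget is touched. -/
theorem one_gadget {b : Rw m → ℝ} (hTU : (Ext b).IsTotallyUnimodular) {t t' : Fin m}
    (htt : t ≠ t') {i i' : Fin 3} {s s' : ℝ} (hs : s = 1 ∨ s = -1) (hs' : s' = 1 ∨ s' = -1)
    (h0 : b (Sum.inr (t, false)) = s * pf i) (h1 : b (Sum.inr (t, true)) = s * qf i)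
    (h0' : b (Sum.inr (t', false)) = s' * pf i') (h1' : b (Sum.inr (t', true)) = s' * qf i') :
    False := by
  have hx : ∀ v, b (Sum.inl v) = 0 := by
    have g := gadget_val hTU hs h0 h1
    have g' := gadget_val hTU hs' h0' h1'
    have hs0 : s ≠ 0 := by rcases hs with rfl | rfl <;> norm_num
    have hs0' : s' ≠ 0 := by rcases hs' with rfl | rfl <;> norm_num
    rcases g with g | g
    · intro v
      exact (mul_eq_zero.1 (g v)).resolve_left hs0
    · exfalso
      obtain ⟨u, hu, hue⟩ := exists_vert t i (s := 1) (Or.inl rfl)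
      have e1 := g u
      rw [hue] at e1
      have e2 : s' * b (Sum.inl u) = 0 := by
        rcases g' with g' | g'
        · exact g' u
        · rw [g' u]
          exact ei_other (by rw [hu]; exact htt)
      have e3 := (mul_eq_zero.1 e2).resolve_left hs0'
      rw [e3] at e1
      norm_num at e1
  obtain ⟨c, ρ, hρ, hc1, hc2⟩ := exists_row (m := m) i
  obtain ⟨c', ρ', hρ', hc1', hc2'⟩ := exists_row (m := m) i'
  obtain ⟨u, hu, hue⟩ := exists_vert t i hs
  obtain ⟨v, hv, hve⟩ := exists_vert t' i' hs'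
  have huv : u ≠ v := by rintro rfl; exact htt (hu.symm.trans hv)
  obtain ⟨p, hp⟩ := exists_edge huv
  have key := U_of_tu hTU ![Sum.inr (t, c), Sum.inr (t', c'), Sum.inl u, Sum.inl v]
    ![cg (t, i), cg (t', i'), ce p, cb]
  rw [det4] at key
  have k1 : Ext b (Sum.inr (t, c)) (cg (t, i)) = -ρ := by rw [hc2, if_pos rfl]
  have k2 : Ext b (Sum.inr (t, c)) (cg (t', i')) = 0 := by
    cases c
    · rw [Ext_g_0, if_neg htt]
    · rw [Ext_g_1, if_neg htt]
  have k3 : Ext b (Sum.inr (t', c')) (cg (t', i')) = -ρ' := by rw [hc2', if_pos rfl]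
  have k4 : Ext b (Sum.inr (t', c')) (cg (t, i)) = 0 := by
    cases c'
    · rw [Ext_g_0, if_neg htt.symm]
    · rw [Ext_g_1, if_neg htt.symm]
  have k5 : Ext b (Sum.inl u) (cg (t, i)) = -s := by rw [Ext_g_l, hue]
  have k6 : Ext b (Sum.inl u) (cg (t', i')) = 0 := by
    rw [Ext_g_l, ei_other (by rw [hu]; exact htt), neg_zero]
  have k7 : Ext b (Sum.inl v) (cg (t', i')) = -s' := by rw [Ext_g_l, hve]
  have k8 : Ext b (Sum.inl v) (cg (t, i)) = 0 := by
    rw [Ext_g_l, ei_other (by rw [hv]; exact htt.symm), neg_zero]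
  have k9 : Ext b (Sum.inr (t, c)) (ce p) = 0 := Ext_e_r _ _ _
  have k10 : Ext b (Sum.inr (t', c')) (ce p) = 0 := Ext_e_r _ _ _
  have k11 : Ext b (Sum.inr (t, c)) cb = s * ρ := by rw [Ext_b, hc1 b t s h0 h1]
  have k12 : Ext b (Sum.inr (t', c')) cb = s' * ρ' := by rw [Ext_b, hc1' b t' s' h0' h1']
  have k13 : Ext b (Sum.inl u) cb = 0 := by rw [Ext_b, hx]
  have k14 : Ext b (Sum.inl v) cb = 0 := by rw [Ext_b, hx]
  obtain ⟨η, hη, k15, k16⟩ : ∃ η : ℝ, (η = 1 ∨ η = -1) ∧ Ext b (Sum.inl u) (ce p) = η ∧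
      Ext b (Sum.inl v) (ce p) = -η := by
    rcases hp with ⟨rfl, rfl⟩ | ⟨rfl, rfl⟩
    · exact ⟨1, Or.inl rfl, Ext_e_1 _ _, Ext_e_2 _ _⟩
    · exact ⟨-1, Or.inr rfl, Ext_e_2 _ _, by rw [neg_neg]; exact Ext_e_1 _ _⟩
  simp only [Matrix.submatrix_apply, Matrix.cons_val_zero, Matrix.cons_val_one, Matrix.cons_val,
    k1, k2, k3, k4, k5, k6, k7, k8, k9, k10, k11, k12, k13, k14, k15, k16] at key
  rcases hs with rfl | rfl <;> rcases hs' with rfl | rfl <;> rcases hρ with rfl | rfl <;>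
    rcases hρ' with rfl | rfl <;> rcases hη with rfl | rfl <;> norm_num [U] at key

/-- Completeness. -/
theorem Am_complete (hm : 0 < m) : IsComplete (Am m) := by
  intro b hb hTU
  have hTU' : (Ext b).IsTotallyUnimodular := hTU
  by_cases hall : ∀ t : Fin m, b (Sum.inr (t, false)) = 0 ∧ b (Sum.inr (t, true)) = 0
  · -- graphic part
    have hr : ∀ q, b (Sum.inr q) = 0 := by
      rintro ⟨t, _ | _⟩
      · exact (hall t).1
      · exact (hall t).2
    have hx : ∀ v, U (b (Sum.inl v)) := fun v => tu1 hTU' (Sum.inl v) cb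
    have hxx : ∀ u v, u ≠ v → U (b (Sum.inl u) + b (Sum.inl v)) := by
      intro u v huv
      obtain ⟨p, ⟨rfl, rfl⟩ | ⟨rfl, rfl⟩⟩ := exists_edge huv
      · have := tu2 hTU' (Sum.inl p.1.1) (Sum.inl p.1.2) (ce p) cb
        rw [Ext_e_1, Ext_e_2, Ext_b, Ext_b] at this
        convert this using 1
        ring
      · have := tu2 hTU' (Sum.inl p.1.1) (Sum.inl p.1.2) (ce p) cb
        rw [Ext_e_1, Ext_e_2, Ext_b, Ext_b] at this
        convert this using 1
        ring
    by_cases hz : ∀ v, b (Sum.inl v) = 0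
    · apply hb 0 (Sum.inl (⟨0, hm⟩, 0))
      funext r
      rcases r with v | q
      · rw [hz v]; simp
      · rw [hr q]; simp
    · push Not at hz
      obtain ⟨u, hu⟩ := hz
      have hu' : b (Sum.inl u) = 1 ∨ b (Sum.inl u) = -1 := (hx u).resolve_left hu
      have hother : ∀ v, v ≠ u → b (Sum.inl v) = 0 ∨ b (Sum.inl v) = - b (Sum.inl u) := by
        intro v hv
        have g := hxx v u hv
        rcases hu' with h | h <;> rcases hx v with h' | h' | h'
        · exact Or.inl h'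
        · rw [h, h'] at g; norm_num [U] at g
        · right; rw [h, h']
        · exact Or.inl h'
        · right; rw [h, h']; norm_num
        · rw [h, h'] at g; norm_num [U] at g
      by_cases hz2 : ∀ v, v ≠ u → b (Sum.inl v) = 0
      · apply hb (b (Sum.inl u)) (Sum.inl u)
        funext r
        rcases r with v | q
        · by_cases hv : v = u
          · subst hv; simp [Am, Az, δ, Matrix.col]
          · rw [hz2 v hv]; simp [Am, Az, δ, Matrix.col, hv]
        · rw [hr q]; simp [Am, Az, δ, Matrix.col]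
      · push Not at hz2
        obtain ⟨v, hv, hv0⟩ := hz2
        have hv' := (hother v hv).resolve_left hv0
        have hw : ∀ w, w ≠ u → w ≠ v → b (Sum.inl w) = 0 := by
          intro w hwu hwv
          rcases hother w hwu with h | h
          · exact h
          · exfalso
            have g := hxx w v hwv
            rw [h, hv'] at g
            rcases hu' with h'' | h'' <;> rw [h''] at g <;> norm_num [U] at g
        obtain ⟨p, ⟨hp1, hp2⟩ | ⟨hp1, hp2⟩⟩ := exists_edge hv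
        · -- p = (v,u)
          apply hb (-b (Sum.inl u)) (Sum.inr (Sum.inl p))
          funext r
          rcases r with w | q
          · by_cases h1 : w = v
            · subst h1
              rw [hv']; simp [Am, Az, δ, Matrix.col, hp1, hp2, hv]
            · by_cases h2 : w = u
              · subst h2
                simp [Am, Az, δ, Matrix.col, hp1, hp2, h1]
              · rw [hw w h2 h1]; simp [Am, Az, δ, Matrix.col, hp1, hp2, h1, h2]
          · rw [hr q]; simp [Am, Az, δ, Matrix.col]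
        · apply hb (b (Sum.inl u)) (Sum.inr (Sum.inl p))
          funext r
          rcases r with w | q
          · by_cases h1 : w = v
            · subst h1
              rw [hv']; simp [Am, Az, δ, Matrix.col, hp1, hp2, hv]
            · by_cases h2 : w = u
              · subst h2
                simp [Am, Az, δ, Matrix.col, hp1, hp2, h1]
              · rw [hw w h2 h1]; simp [Am, Az, δ, Matrix.col, hp1, hp2, h1, h2]
          · rw [hr q]; simp [Am, Az, δ, Matrix.col]
  · push Not at hall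
    obtain ⟨t, ht⟩ := hall
    obtain ⟨i, s, hs, h0, h1⟩ := (gadget_y hTU' t).resolve_left (fun h => ht h.1 h.2)
    have hot : ∀ t', t' ≠ t → b (Sum.inr (t', false)) = 0 ∧ b (Sum.inr (t', true)) = 0 := by
      intro t' htt
      rcases gadget_y hTU' t' with h | ⟨i', s', hs', h0', h1'⟩
      · exact h
      · exact (one_gadget hTU' htt.symm hs hs' h0 h1 h0' h1').elim
    have hss : s * s = 1 := by rcases hs with rfl | rfl <;> norm_num
    rcases gadget_val hTU' hs h0 h1 with g | g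
    · apply hb s (Sum.inr (Sum.inr (Sum.inl (t, i))))
      funext r
      rcases r with w | ⟨t', _ | _⟩
      · have : b (Sum.inl w) = 0 := by
          have := congrArg (s * ·) (g w)
          simp only [← mul_assoc, hss, one_mul, mul_zero] at this
          exact this
        rw [this]; simp [Am, Az, δ, Matrix.col]
      · by_cases htt : t' = t
        · subst htt; rw [h0]; simp [Am, Az, δ, Matrix.col]
        · rw [(hot t' htt).1]; simp [Am, Az, δ, Matrix.col, htt]
      · by_cases htt : t' = t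
        · subst htt; rw [h1]; simp [Am, Az, δ, Matrix.col]
        · rw [(hot t' htt).2]; simp [Am, Az, δ, Matrix.col, htt]
    · apply hb (-s) (Sum.inr (Sum.inr (Sum.inr (t, i))))
      funext r
      rcases r with w | ⟨t', _ | _⟩
      · have : b (Sum.inl w) = s * ei t i w := by
          have := congrArg (s * ·) (g w)
          simp only [← mul_assoc, hss, one_mul] at this
          exact this
        rw [this]; simp [Am, Az, δ, Matrix.col, ei]; ring
      · by_cases htt : t' = t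
        · subst htt; rw [h0]; simp [Am, Az, δ, Matrix.col]
        · rw [(hot t' htt).1]; simp [Am, Az, δ, Matrix.col, htt]
      · by_cases htt : t' = t
        · subst htt; rw [h1]; simp [Am, Az, δ, Matrix.col]
        · rw [(hot t' htt).2]; simp [Am, Az, δ, Matrix.col, htt]

end Pool.R447.HN
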