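import Mathlib

/-!
# Column matroids, base polytopes, flacets and the hitting number
-/

namespace Pool.R447.HN

open Matrix

/-- Rank of a set of columns of a real matrix. -/
noncomputable def rk {R E : Type*} (A : Matrix R E ℝ) (F : Set E) : ℕ :=
  Module.finrank ℝ (Submodule.span ℝ (A.col '' F))

/-- Bases of the column matroid. -/
def IsBase {R E : Type*} (A : Matrix R E ℝ) (B : Set E) : Prop :=
  LinearIndepOn ℝ A.col B ∧ Submodule.span ℝ (A.col '' B) = Submodule.span ℝ (Set.range A.col)

/-- Flats of the column matroid. -/
def IsFlat {R E : Type*} (A : Matrix R E ℝ) (F : Set E) : Prop :=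
  ∀ e, e ∉ F → rk A F < rk A (insert e F)

/-- The base polytope: convex hull of the indicator vectors of the bases. -/
def basePolytope {R E : Type*} (A : Matrix R E ℝ) : Set (E → ℝ) :=
  convexHull ℝ {x | ∃ B, IsBase A B ∧ x = B.indicator 1}

/-- The face of the base polytope cut out by the inequality `x(F) ≤ rk F`. -/
def face {R E : Type*} [Fintype E] (A : Matrix R E ℝ) (F : Set E) : Set (E → ℝ) :=
  {x | x ∈ basePolytope A ∧ ∑ e, F.indicator x e = rk A F}

/-- Flacets: flats whose inequality defines a facet (a nonempty face of codimension one). -/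
def IsFlacet {R E : Type*} [Fintype E] (A : Matrix R E ℝ) (F : Set E) : Prop :=
  IsFlat A F ∧ (face A F).Nonempty ∧
    Module.finrank ℝ (vectorSpan ℝ (face A F)) + 1
      = Module.finrank ℝ (vectorSpan ℝ (basePolytope A))

/-- Hitting families: sets of bases such that every flacet has full intersection with a member. -/
def IsHittingFamily {R E : Type*} [Fintype E] (A : Matrix R E ℝ) (V : Finset (Set E)) : Prop :=
  (∀ B ∈ V, IsBase A B) ∧ ∀ F, IsFlacet A F → ∃ B ∈ V, (B ∩ F).ncard = rk A F

/-- The hitting number. -/
noncomputable def hittingNumber {R E : Type*} [Fintype E] (A : Matrix R E ℝ) : ℕ :=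
  sInf {k | ∃ V : Finset (Set E), IsHittingFamily A V ∧ V.card = k}

/-- Complete (maximally totally unimodular) matrices: appending a column which is not a scalar
multiple of a column of `A` destroys total unimodularity. -/
def IsComplete {R E : Type*} (A : Matrix R E ℝ) : Prop :=
  ∀ b : R → ℝ, (∀ (c : ℝ) (e : E), b ≠ c • A.col e) →
    ¬ (Matrix.fromCols A (Matrix.replicateCol Unit b)).IsTotallyUnimodular

/-- Matrices representing complete regular (loopless) matroids: totally unimodular, of full row
rank, without zero columns and complete. -/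
structure IsCompleteRegular {R E : Type*} [Fintype R] (A : Matrix R E ℝ) : Prop where
  tu : A.IsTotallyUnimodular
  full : rk A Set.univ = Fintype.card R
  loopless : ∀ e, A.col e ≠ 0
  complete : IsComplete A

end Pool.R447.HN
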