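import Pool.Agent.R447.HN.Defs

/-!
# Bases with full intersection and the exchange lemma
-/

set_option linter.unusedSectionVars false

namespace Pool.R447.HN

open Matrix

variable {R E : Type*} [Fintype R] [Fintype E] (A : Matrix R E ℝ)

theorem indep_extend {I Y : Set E} (hI : LinearIndepOn ℝ A.col I) (hIY : I ⊆ Y) :
    ∃ J, I ⊆ J ∧ J ⊆ Y ∧ LinearIndepOn ℝ A.col J ∧
      Submodule.span ℝ (A.col '' J) = Submodule.span ℝ (A.col '' Y) :=
  ⟨hI.extend hIY, hI.subset_extend hIY, hI.extend_subset hIY, hI.linearIndepOn_extend hIY,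
    hI.span_image_extend_eq_span_image hIY⟩

theorem ncard_eq_rk {I Y : Set E} (hI : LinearIndepOn ℝ A.col I)
    (hs : Submodule.span ℝ (A.col '' I) = Submodule.span ℝ (A.col '' Y)) : I.ncard = rk A Y := by
  classical
  rw [rk, ← hs]
  have h1 : A.col '' I = Set.range (fun x : I => A.col x) := by
    ext y; simp
  rw [h1, finrank_span_eq_card hI, Set.ncard_eq_toFinset_card', Set.toFinset_card]

theorem ncard_eq_rk_self {I : Set E} (hI : LinearIndepOn ℝ A.col I) : I.ncard = rk A I :=
  ncard_eq_rk A hI rfl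

theorem rk_mono {X Y : Set E} (h : X ⊆ Y) : rk A X ≤ rk A Y :=
  Submodule.finrank_mono (Submodule.span_mono (Set.image_mono h))

/-- If `J ⊆ F` spans `F`, and `J ⊆ B` is contained in an independent set, then `B ∩ F = J`. -/
theorem inter_eq_of_span {B J F : Set E} (hB : LinearIndepOn ℝ A.col B) (hJB : J ⊆ B)
    (hJF : J ⊆ F) (hs : Submodule.span ℝ (A.col '' J) = Submodule.span ℝ (A.col '' F)) :
    B ∩ F = J := by
  apply Set.Subset.antisymm
  · rintro x ⟨hxB, hxF⟩
    by_contra hxJ
    have h1 : A.col x ∈ Submodule.span ℝ (A.col '' J) := by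
      rw [hs]; exact Submodule.subset_span (Set.mem_image_of_mem _ hxF)
    have h2 : LinearIndepOn ℝ A.col (insert x J) := hB.mono (Set.insert_subset hxB hJB)
    exact ((linearIndepOn_insert hxJ).1 h2).2 h1
  · exact fun x hx => ⟨hJB hx, hJF hx⟩

/-- Full intersection means that `B ∩ F` spans `F`. -/
theorem span_of_full {B F : Set E} (hB : LinearIndepOn ℝ A.col B)
    (h : (B ∩ F).ncard = rk A F) :
    Submodule.span ℝ (A.col '' (B ∩ F)) = Submodule.span ℝ (A.col '' F) := by
  apply Submodule.eq_of_le_of_finrank_eq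
  · exact Submodule.span_mono (Set.image_mono Set.inter_subset_right)
  · have := ncard_eq_rk_self A (hB.mono (Set.inter_subset_left (t := F)))
    rw [rk] at this
    rw [← this, h, rk]

/-- Full intersection is the maximum possible. -/
theorem exists_base_full (F : Set E) : ∃ B, IsBase A B ∧ (B ∩ F).ncard = rk A F := by
  obtain ⟨J, -, hJF, hJ, hs⟩ := indep_extend A (I := ∅) (Y := F)
    (linearIndepOn_empty ℝ A.col) (Set.empty_subset _)
  obtain ⟨B, hJB, -, hB, hBs⟩ := indep_extend A hJ (Set.subset_univ J)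
  refine ⟨B, ⟨hB, by rw [hBs, Set.image_univ]⟩, ?_⟩
  rw [inter_eq_of_span A hB hJB hJF hs]
  exact ncard_eq_rk A hJ hs

/-- Exchange lemma, base version. -/
theorem exchange_aux {F B J X : Set E} {e e' : E} (hB : IsBase A B)
    (hJX : Submodule.span ℝ (A.col '' J) = Submodule.span ℝ (A.col '' X))
    (hJB : J ⊆ B) (he : e ∈ B) (heX : A.col e ∉ Submodule.span ℝ (A.col '' X))
    {α : ℝ} (hα : α ≠ 0) (hv : A.col e' - α • A.col e ∈ Submodule.span ℝ (A.col '' X))
    (hF : (e ∈ F ↔ e' ∈ F)) (hne : e ≠ e') (hBF : (B ∩ F).ncard = rk A F) :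
    e' ∉ B ∧ IsBase A (insert e' (B \ {e})) ∧ ((insert e' (B \ {e})) ∩ F).ncard = rk A F := by
  classical
  have heJ : e ∉ J := fun h => heX (hJX ▸ Submodule.subset_span (Set.mem_image_of_mem _ h))
  have hJB' : J ⊆ B \ {e} := fun x hx => ⟨hJB hx, by
    rintro rfl; exact heJ hx⟩
  have hXle : Submodule.span ℝ (A.col '' X) ≤ Submodule.span ℝ (A.col '' (B \ {e})) := by
    rw [← hJX]; exact Submodule.span_mono (Set.image_mono hJB')
  have heB : A.col e ∉ Submodule.span ℝ (A.col '' (B \ {e})) := by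
    have h2 : LinearIndepOn ℝ A.col (insert e (B \ {e})) := by
      rw [Set.insert_sdiff_singleton, Set.insert_eq_of_mem he]; exact hB.1
    exact ((linearIndepOn_insert (by simp)).1 h2).2
  have hspan' : A.col e' ∉ Submodule.span ℝ (A.col '' (B \ {e})) := by
    intro hcon
    apply heB
    have h3 : α • A.col e ∈ Submodule.span ℝ (A.col '' (B \ {e})) := by
      have := Submodule.sub_mem _ hcon (hXle hv)
      simpa using this
    have := Submodule.smul_mem _ α⁻¹ h3
    rwa [smul_smul, inv_mul_cancel₀ hα, one_smul] at this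
  have he'B : e' ∉ B := by
    intro hcon
    exact hspan' (Submodule.subset_span (Set.mem_image_of_mem _ ⟨hcon, by
      simpa using hne.symm⟩))
  have hind : LinearIndepOn ℝ A.col (insert e' (B \ {e})) :=
    (hB.1.mono Set.sdiff_subset).insert hspan'
  refine ⟨he'B, ⟨hind, ?_⟩, ?_⟩
  · apply Submodule.eq_of_le_of_finrank_eq
    · exact Submodule.span_mono (Set.image_subset_range _ _)
    · have h4 := ncard_eq_rk_self A hind
      have h5 := ncard_eq_rk A hB.1 (Y := Set.univ) (by rw [hB.2, Set.image_univ])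
      have h6 : (insert e' (B \ {e})).ncard = B.ncard := by
        rw [Set.ncard_insert_of_notMem (fun h => he'B h.1), Set.ncard_sdiff_singleton_add_one he]
      rw [rk] at h4
      rw [← h4, h6, h5, rk, Set.image_univ]
  · rw [← hBF]
    by_cases heF : e ∈ F
    · have he'F := hF.1 heF
      have h7 : (insert e' (B \ {e})) ∩ F = insert e' ((B ∩ F) \ {e}) := by
        ext x
        simp only [Set.mem_inter_iff, Set.mem_insert_iff, Set.mem_sdiff, Set.mem_singleton_iff]
        constructor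
        · rintro ⟨rfl | h, hF'⟩
          · exact Or.inl rfl
          · exact Or.inr ⟨⟨h.1, hF'⟩, h.2⟩
        · rintro (rfl | h)
          · exact ⟨Or.inl rfl, he'F⟩
          · exact ⟨Or.inr ⟨h.1.1, h.2⟩, h.1.2⟩
      rw [h7, Set.ncard_insert_of_notMem (fun h => he'B h.1.1),
        Set.ncard_sdiff_singleton_add_one (show e ∈ B ∩ F from ⟨he, heF⟩)]
    · have he'F : e' ∉ F := fun h => heF (hF.2 h)
      congr 1
      ext x
      simp only [Set.mem_inter_iff, Set.mem_insert_iff, Set.mem_sdiff, Set.mem_singleton_iff]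
      constructor
      · rintro ⟨rfl | h, hF'⟩
        · exact absurd hF' he'F
        · exact ⟨h.1, hF'⟩
      · rintro ⟨h1, h2⟩
        exact ⟨Or.inr ⟨h1, by rintro rfl; exact heF h2⟩, h2⟩

/-- The set of indicator vectors of bases with full intersection with `F`. -/
def fullVecs (F : Set E) : Set (E → ℝ) :=
  {x | ∃ B, IsBase A B ∧ (B ∩ F).ncard = rk A F ∧ x = B.indicator 1}

theorem indicator_diff [DecidableEq E] {B : Set E} {e e' : E} (he : e ∈ B) (he' : e' ∉ B) :
    B.indicator (1 : E → ℝ) - (insert e' (B \ {e})).indicator 1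
      = Pi.single e 1 - Pi.single e' 1 := by
  classical
  funext x
  simp only [Pi.sub_apply, Set.indicator_apply, Pi.one_apply, Pi.single_apply,
    Set.mem_insert_iff, Set.mem_sdiff, Set.mem_singleton_iff]
  by_cases h1 : x = e
  · subst h1
    have : x ≠ e' := by rintro rfl; exact he' he
    simp [he, this]
  · by_cases h2 : x = e'
    · subst h2
      simp [he', h1]
    · by_cases h3 : x ∈ B <;> simp [h1, h2, h3]

/-- Exchange lemma: differences of unit vectors in the vector span of the full bases. -/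
theorem exchange [DecidableEq E] {F X : Set E} {e e' : E}
    (heX : A.col e ∉ Submodule.span ℝ (A.col '' X))
    {α : ℝ} (hα : α ≠ 0) (hv : A.col e' - α • A.col e ∈ Submodule.span ℝ (A.col '' X))
    (hF : (X ⊆ F ∧ e ∈ F ∧ e' ∈ F) ∨ (F ⊆ X ∧ e ∉ F ∧ e' ∉ F)) :
    (Pi.single e 1 - Pi.single e' 1 : E → ℝ) ∈ vectorSpan ℝ (fullVecs A F) := by
  classical
  by_cases hne : e = e'
  · subst hne; simp
  have key : ∃ B J, IsBase A B ∧
      Submodule.span ℝ (A.col '' J) = Submodule.span ℝ (A.col '' X) ∧ J ⊆ B ∧ e ∈ B ∧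
      (B ∩ F).ncard = rk A F := by
    rcases hF with ⟨hXF, heF, -⟩ | ⟨hFX, heF, -⟩
    · obtain ⟨J, -, hJX, hJ, hJs⟩ := indep_extend A (I := ∅) (Y := X)
        (linearIndepOn_empty ℝ A.col) (Set.empty_subset _)
      have heJ : A.col e ∉ Submodule.span ℝ (A.col '' J) := by rwa [hJs]
      have hJe : LinearIndepOn ℝ A.col (insert e J) := hJ.insert heJ
      obtain ⟨K, hK1, hK2, hK, hKs⟩ := indep_extend A hJe
        (Set.insert_subset heF (hJX.trans hXF))
      obtain ⟨B, hKB, -, hB, hBs⟩ := indep_extend A hK (Set.subset_univ K)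
      refine ⟨B, J, ⟨hB, by rw [hBs, Set.image_univ]⟩, hJs,
        ((Set.subset_insert e J).trans hK1).trans hKB, hKB (hK1 (Set.mem_insert e J)), ?_⟩
      rw [inter_eq_of_span A hB hKB hK2 hKs]
      exact ncard_eq_rk A hK hKs
    · obtain ⟨K, -, hKF, hK, hKs⟩ := indep_extend A (I := ∅) (Y := F)
        (linearIndepOn_empty ℝ A.col) (Set.empty_subset _)
      obtain ⟨J, hKJ, hJX, hJ, hJs⟩ := indep_extend A hK (hKF.trans hFX)
      have heJ : A.col e ∉ Submodule.span ℝ (A.col '' J) := by rwa [hJs]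
      have hJe : LinearIndepOn ℝ A.col (insert e J) := hJ.insert heJ
      obtain ⟨B, hJB, -, hB, hBs⟩ := indep_extend A hJe (Set.subset_univ _)
      refine ⟨B, J, ⟨hB, by rw [hBs, Set.image_univ]⟩, hJs,
        (Set.subset_insert e J).trans hJB, hJB (Set.mem_insert e J), ?_⟩
      rw [inter_eq_of_span A hB ((hKJ.trans (Set.subset_insert e J)).trans hJB) hKF hKs]
      exact ncard_eq_rk A hK hKs
  obtain ⟨B, J, hB, hJs, hJB, heB, hBF⟩ := key
  have hiff : (e ∈ F ↔ e' ∈ F) := by
    rcases hF with ⟨-, h1, h2⟩ | ⟨-, h1, h2⟩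
    · exact ⟨fun _ => h2, fun _ => h1⟩
    · exact ⟨fun h => absurd h h1, fun h => absurd h h2⟩
  obtain ⟨h1, h2, h3⟩ := exchange_aux A hB hJs hJB heB heX hα hv hiff hne hBF
  rw [← indicator_diff heB h1]
  exact vsub_mem_vectorSpan ℝ ⟨B, hB, hBF, rfl⟩ ⟨_, h2, h3, rfl⟩

theorem sum_indicator (B F : Set E) :
    ∑ e, F.indicator (B.indicator (1 : E → ℝ)) e = ((B ∩ F).ncard : ℝ) := by
  classical
  have : ∀ e, F.indicator (B.indicator (1 : E → ℝ)) e = if e ∈ B ∩ F then 1 else 0 := by
    intro e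
    simp only [Set.indicator_apply, Set.mem_inter_iff, Pi.one_apply]
    by_cases h1 : e ∈ F <;> by_cases h2 : e ∈ B <;> simp [h1, h2]
  rw [Finset.sum_congr rfl fun e _ => this e, Finset.sum_boole, Set.ncard_eq_toFinset_card']
  congr 1
  congr 1
  ext x; simp

theorem fullVecs_subset_face (F : Set E) : fullVecs A F ⊆ face A F := by
  rintro x ⟨B, hB, hBF, rfl⟩
  exact ⟨subset_convexHull ℝ _ ⟨B, hB, rfl⟩, by rw [sum_indicator, hBF]⟩

/-- The sum of all coordinates. -/
noncomputable def totL (E : Type*) [Fintype E] : (E → ℝ) →ₗ[ℝ] ℝ := ∑ e, LinearMap.proj e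

open Classical in
/-- The sum of the coordinates in `F`. -/
noncomputable def sumL (F : Set E) : (E → ℝ) →ₗ[ℝ] ℝ :=
  ∑ e, if e ∈ F then LinearMap.proj e else 0

theorem both_apply (F : Set E) (x : E → ℝ) :
    ((sumL F).prod (totL E)) x = (sumL F x, totL E x) := rfl

theorem totL_apply (x : E → ℝ) : totL E x = ∑ e, x e := by simp [totL]

theorem sumL_apply (F : Set E) (x : E → ℝ) : sumL F x = ∑ e, F.indicator x e := by
  classical
  simp only [sumL, LinearMap.sum_apply, Set.indicator_apply]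
  refine Finset.sum_congr rfl fun e _ => ?_
  split_ifs <;> simp

theorem totL_base {B : Set E} (hB : IsBase A B) : totL E (B.indicator 1) = rk A Set.univ := by
  have h := sum_indicator B Set.univ
  rw [Set.inter_univ, ncard_eq_rk A hB.1 (Y := Set.univ) (by rw [hB.2, Set.image_univ])] at h
  rw [totL_apply, ← h]
  simp

theorem totL_polytope {x : E → ℝ} (hx : x ∈ basePolytope A) : totL E x = rk A Set.univ := by
  have hsub : basePolytope A ⊆ {x | totL E x = rk A Set.univ} := by
    apply convexHull_min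
    · rintro x ⟨B, hB, rfl⟩
      exact totL_base A hB
    · exact convex_hyperplane (totL E).isLinear _
  exact hsub hx

theorem finrank_ker_totL [Nonempty E] :
    Module.finrank ℝ (LinearMap.ker (totL E)) + 1 = Fintype.card E := by
  classical
  have h := LinearMap.finrank_range_add_finrank_ker (totL E)
  have h2 : LinearMap.range (totL E) = ⊤ := by
    rw [LinearMap.range_eq_top]
    intro y
    obtain ⟨e⟩ := ‹Nonempty E›
    exact ⟨Pi.single e y, by simp [totL_apply]⟩
  rw [h2] at h
  simp at h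
  omega

theorem finrank_ker_both {F : Set E} (hF : F.Nonempty) (hF' : Fᶜ.Nonempty) :
    Module.finrank ℝ (LinearMap.ker ((sumL F).prod (totL E))) + 2 = Fintype.card E := by
  classical
  have h := LinearMap.finrank_range_add_finrank_ker ((sumL F).prod (totL E))
  have h2 : LinearMap.range ((sumL F).prod (totL E)) = ⊤ := by
    rw [LinearMap.range_eq_top]
    rintro ⟨a, b⟩
    obtain ⟨e, he⟩ := hF
    obtain ⟨e', he'⟩ := hF'
    refine ⟨Pi.single e a + Pi.single e' (b - a), ?_⟩
    have h3 : ∀ x, F.indicator (Pi.single e a + Pi.single e' (b - a) : E → ℝ) x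
        = (Pi.single e a : E → ℝ) x := by
      intro x
      by_cases hx : x ∈ F
      · have : x ≠ e' := by rintro rfl; exact he' hx
        simp [hx, this]
      · have : x ≠ e := by rintro rfl; exact hx he
        simp [hx, this]
    rw [both_apply, sumL_apply, totL_apply]
    rw [Finset.sum_congr rfl fun x _ => h3 x]
    simp [Finset.sum_add_distrib]
  rw [h2] at h
  simp at h
  omega

theorem mem_vspan_of_same [DecidableEq E] {D : Submodule ℝ (E → ℝ)} {F : Set E}
    (hF : F.Nonempty) (hF' : Fᶜ.Nonempty)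
    (h1 : ∀ e ∈ F, ∀ e' ∈ F, (Pi.single e 1 - Pi.single e' 1 : E → ℝ) ∈ D)
    (h2 : ∀ e, e ∉ F → ∀ e', e' ∉ F → (Pi.single e 1 - Pi.single e' 1 : E → ℝ) ∈ D) :
    LinearMap.ker ((sumL F).prod (totL E)) ≤ D := by
  classical
  intro x hx
  obtain ⟨a, ha⟩ := hF
  obtain ⟨b, hb⟩ := hF'
  rw [LinearMap.mem_ker, both_apply, Prod.mk_eq_zero, sumL_apply, totL_apply] at hx
  obtain ⟨hx1, hx2⟩ := hx
  have hx3 : ∑ e, Fᶜ.indicator x e = 0 := by
    have : ∑ e, F.indicator x e + ∑ e, Fᶜ.indicator x e = ∑ e, x e := by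
      rw [← Finset.sum_add_distrib]
      exact Finset.sum_congr rfl fun e _ => Set.indicator_self_add_compl_apply F x e
    linarith
  have e1 : x = ∑ e, x e • (Pi.single e (1:ℝ) : E → ℝ) := by
    funext y
    simp [Finset.sum_apply, Pi.single_apply]
  have e2 : x = ∑ e, (x e • (Pi.single e (1:ℝ) - (if e ∈ F then Pi.single a 1 else Pi.single b 1)
      : E → ℝ)) := by
    rw [Finset.sum_congr rfl fun e _ => smul_sub (x e) _ _, Finset.sum_sub_distrib, ← e1]
    have : ∑ e, x e • (if e ∈ F then Pi.single a (1:ℝ) else Pi.single b 1 : E → ℝ)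
        = (∑ e, F.indicator x e) • Pi.single a 1 + (∑ e, Fᶜ.indicator x e) • Pi.single b 1 := by
      rw [Finset.sum_smul, Finset.sum_smul, ← Finset.sum_add_distrib]
      refine Finset.sum_congr rfl fun e _ => ?_
      by_cases he : e ∈ F <;> simp [he]
    rw [this, hx1, hx3]; simp
  rw [e2]
  refine Submodule.sum_mem _ fun e _ => Submodule.smul_mem _ _ ?_
  by_cases he : e ∈ F
  · simp only [he, if_true]; exact h1 e he a ha
  · simp only [he, if_false]; exact h2 e he b hb

/-- Criterion for flacets. -/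
theorem isFlacet_of [DecidableEq E] {F : Set E} (hflat : IsFlat A F)
    {a b : E} (ha : a ∈ F) (hb : b ∉ F)
    (h1 : ∀ e ∈ F, (Pi.single e 1 - Pi.single a 1 : E → ℝ) ∈ vectorSpan ℝ (fullVecs A F))
    (h2 : ∀ e, e ∉ F → (Pi.single e 1 - Pi.single b 1 : E → ℝ) ∈ vectorSpan ℝ (fullVecs A F))
    (h3 : (Pi.single a 1 - Pi.single b 1 : E → ℝ) ∈ vectorSpan ℝ (fullVecs A Set.univ)) :
    IsFlacet A F := by
  classical
  have hne : (face A F).Nonempty := by
    obtain ⟨B, hB, hBF⟩ := exists_base_full A F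
    exact ⟨_, fullVecs_subset_face A F ⟨B, hB, hBF, rfl⟩⟩
  refine ⟨hflat, hne, ?_⟩
  have sub1 : vectorSpan ℝ (fullVecs A F) ≤ vectorSpan ℝ (face A F) :=
    vectorSpan_mono ℝ (fullVecs_subset_face A F)
  have sub2 : vectorSpan ℝ (face A F) ≤ vectorSpan ℝ (basePolytope A) :=
    vectorSpan_mono ℝ fun x hx => hx.1
  have sub3 : vectorSpan ℝ (fullVecs A Set.univ) ≤ vectorSpan ℝ (basePolytope A) :=
    vectorSpan_mono ℝ fun x hx => (fullVecs_subset_face A _ hx).1
  have hd1 : ∀ e ∈ F, ∀ e' ∈ F,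
      (Pi.single e 1 - Pi.single e' 1 : E → ℝ) ∈ vectorSpan ℝ (fullVecs A F) := by
    intro e he e' he'
    have := Submodule.sub_mem _ (h1 e he) (h1 e' he')
    rwa [sub_sub_sub_cancel_right] at this
  have hd2 : ∀ e, e ∉ F → ∀ e', e' ∉ F →
      (Pi.single e 1 - Pi.single e' 1 : E → ℝ) ∈ vectorSpan ℝ (fullVecs A F) := by
    intro e he e' he'
    have := Submodule.sub_mem _ (h2 e he) (h2 e' he')
    rwa [sub_sub_sub_cancel_right] at this
  have eqF : vectorSpan ℝ (face A F) = LinearMap.ker ((sumL F).prod (totL E)) := by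
    apply le_antisymm
    · rw [vectorSpan_def, Submodule.span_le]
      rintro _ ⟨x, hx, y, hy, rfl⟩
      simp only [vsub_eq_sub, SetLike.mem_coe, LinearMap.mem_ker, map_sub, both_apply]
      rw [totL_polytope A hx.1, totL_polytope A hy.1, sumL_apply, sumL_apply, hx.2, hy.2]
      simp
    · exact (mem_vspan_of_same ⟨a, ha⟩ ⟨b, hb⟩ hd1 hd2).trans sub1
  have eqP : vectorSpan ℝ (basePolytope A) = LinearMap.ker (totL E) := by
    apply le_antisymm
    · rw [vectorSpan_def, Submodule.span_le]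
      rintro _ ⟨x, hx, y, hy, rfl⟩
      simp only [vsub_eq_sub, SetLike.mem_coe, LinearMap.mem_ker, map_sub]
      rw [totL_polytope A hx, totL_polytope A hy, sub_self]
    · intro x hx
      have hall : ∀ e, (Pi.single e 1 - Pi.single b 1 : E → ℝ) ∈ vectorSpan ℝ (basePolytope A) := by
        intro e
        by_cases he : e ∈ F
        · have := Submodule.add_mem _ (sub2 (sub1 (h1 e he))) (sub3 h3)
          rwa [sub_add_sub_cancel] at this
        · exact sub2 (sub1 (h2 e he))
      rw [LinearMap.mem_ker, totL_apply] at hx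
      have e1 : x = ∑ e, x e • (Pi.single e (1:ℝ) : E → ℝ) := by
        funext y
        simp [Finset.sum_apply, Pi.single_apply]
      have e2 : x = ∑ e, (x e • (Pi.single e (1:ℝ) - Pi.single b 1 : E → ℝ)) := by
        rw [Finset.sum_congr rfl fun e _ => smul_sub (x e) _ _, Finset.sum_sub_distrib, ← e1,
          ← Finset.sum_smul, hx]
        simp
      rw [e2]
      exact Submodule.sum_mem _ fun e _ => Submodule.smul_mem _ _ (hall e)
  have : Nonempty E := ⟨a⟩
  have f1 := finrank_ker_totL (E := E)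
  have f2 := finrank_ker_both (F := F) ⟨a, ha⟩ ⟨b, hb⟩
  rw [eqF, eqP]
  omega

theorem hitting_nonempty : ∃ V : Finset (Set E), IsHittingFamily A V := by
  classical
  refine ⟨Finset.univ.filter (IsBase A), fun B hB => by simpa using hB, fun F _ => ?_⟩
  obtain ⟨B, hB, hBF⟩ := exists_base_full A F
  exact ⟨B, by simpa using hB, hBF⟩

/-- The span criterion. -/
theorem notMem_span_of_functional {X : Set E} {e : E} (φ : (R → ℝ) →ₗ[ℝ] ℝ)
    (h0 : ∀ x ∈ X, φ (A.col x) = 0) (h1 : φ (A.col e) ≠ 0) :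
    A.col e ∉ Submodule.span ℝ (A.col '' X) := by
  intro h
  have : Submodule.span ℝ (A.col '' X) ≤ LinearMap.ker φ := by
    rw [Submodule.span_le]
    rintro _ ⟨x, hx, rfl⟩
    exact h0 x hx
  exact h1 (this h)

theorem rk_lt_of_notMem {F : Set E} {e : E} (h : A.col e ∉ Submodule.span ℝ (A.col '' F)) :
    rk A F < rk A (insert e F) := by
  apply Submodule.finrank_lt_finrank_of_lt
  refine lt_of_le_of_ne (Submodule.span_mono (Set.image_mono (Set.subset_insert e F))) ?_
  intro hcon
  apply h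
  rw [hcon]
  exact Submodule.subset_span (Set.mem_image_of_mem _ (Set.mem_insert e F))

end Pool.R447.HN
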