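import Pool.Agent.R447.HN.Mat

/-!
# The `3^m` flacets
-/

set_option linter.unusedSectionVars false

namespace Pool.R447.HN

open Matrix

variable {m : ℕ}

abbrev eT (v : Vx m) : El m := Sum.inl v
abbrev eE (p : Ed m) : El m := Sum.inr (Sum.inl p)
abbrev eF (v : Vx m) : El m := Sum.inr (Sum.inr (Sum.inl v))
abbrev eG (v : Vx m) : El m := Sum.inr (Sum.inr (Sum.inr v))

theorem col_edge (p : Ed m) :
    (Am m).col (eE p) = (Am m).col (eT p.1.1) - (Am m).col (eT p.1.2) := by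
  funext r
  simp [Am, Az, Matrix.col]

theorem col_g (v : Vx m) :
    (Am m).col (eG v) = - (Am m).col (eF v)
      - ((Am m).col (eT (v.1, v.2 + 1)) - (Am m).col (eT (v.1, v.2 + 2))) := by
  funext r
  simp [Am, Az, Matrix.col]

/-- Vertex coordinate. -/
def cV (o : Vx m) : (Rw m → ℝ) →ₗ[ℝ] ℝ := LinearMap.proj (Sum.inl o)

/-- Gadget functional vanishing on `f_s`. -/
noncomputable def cG (t : Fin m) (s : Fin 3) : (Rw m → ℝ) →ₗ[ℝ] ℝ :=
  (pf s : ℝ) • LinearMap.proj (Sum.inr (t, true)) - (qf s : ℝ) • LinearMap.proj (Sum.inr (t, false))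

theorem cV_T (o v : Vx m) : cV o ((Am m).col (eT v)) = if o = v then 1 else 0 := by
  simp [cV, Am, Az, δ, Matrix.col]

theorem cV_F (o v : Vx m) : cV o ((Am m).col (eF v)) = 0 := by
  simp [cV, Am, Az, δ, Matrix.col]

theorem cG_T (t : Fin m) (s : Fin 3) (v : Vx m) : cG t s ((Am m).col (eT v)) = 0 := by
  simp [cG, Am, Az, δ, Matrix.col]

theorem cG_F (t : Fin m) (s : Fin 3) (v : Vx m) :
    cG t s ((Am m).col (eF v)) = if t = v.1 then (pf s * qf v.2 - qf s * pf v.2 : ℝ) else 0 := by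
  by_cases h : t = v.1 <;> simp [cG, Am, Az, δ, Matrix.col, h]

theorem cG_F_zero_iff (t : Fin m) (s i : Fin 3) : cG t s ((Am m).col (eF (t, i))) = 0 ↔ i = s := by
  rw [cG_F, if_pos rfl]
  have key : ∀ s i : Fin 3, pf s * qf i - qf s * pf i = 0 ↔ i = s := by decide
  rw [← key s i]
  constructor
  · intro h; exact_mod_cast h
  · intro h; exact_mod_cast h

/-- The flacets. -/
def Fs (s : Fin m → Fin 3) : Set (El m) :=
  {e | ∀ t, cV (t, s t) ((Am m).col e) = 0 ∧ cG t (s t) ((Am m).col e) = 0}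

theorem T_mem {s : Fin m → Fin 3} {v : Vx m} : eT v ∈ Fs s ↔ v.2 ≠ s v.1 := by
  constructor
  · intro h h2
    have := (h v.1).1
    rw [cV_T, if_pos (by rw [← h2])] at this
    norm_num at this
  · intro h t
    refine ⟨?_, cG_T _ _ _⟩
    rw [cV_T, if_neg]
    rintro rfl
    exact h rfl

theorem E_mem {s : Fin m → Fin 3} {p : Ed m} :
    eE p ∈ Fs s ↔ p.1.1.2 ≠ s p.1.1.1 ∧ p.1.2.2 ≠ s p.1.2.1 := by
  constructor
  · intro h
    constructor
    · intro h2
      have := (h p.1.1.1).1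
      rw [col_edge, map_sub, cV_T, cV_T, if_pos (by rw [← h2]), if_neg (by
        rw [← h2]; exact p.ne)] at this
      norm_num at this
    · intro h2
      have := (h p.1.2.1).1
      rw [col_edge, map_sub, cV_T, cV_T, if_neg (by rw [← h2]; exact p.ne.symm),
        if_pos (by rw [← h2])] at this
      norm_num at this
  · rintro ⟨h1, h2⟩ t
    rw [col_edge, map_sub, map_sub, cG_T, cG_T, cV_T, cV_T, if_neg, if_neg]
    · simp
    · intro h; apply h2; rw [← h]
    · intro h; apply h1; rw [← h]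

theorem F_mem {s : Fin m → Fin 3} {v : Vx m} : eF v ∈ Fs s ↔ v.2 = s v.1 := by
  constructor
  · intro h
    exact (cG_F_zero_iff v.1 (s v.1) v.2).1 (h v.1).2
  · intro h t
    refine ⟨cV_F _ _, ?_⟩
    by_cases ht : t = v.1
    · subst ht
      exact (cG_F_zero_iff v.1 (s v.1) v.2).2 h
    · rw [cG_F, if_neg ht]

theorem fin3_1 : ∀ i : Fin 3, i ≠ i + 1 := by decide
theorem fin3_2 : ∀ i : Fin 3, i ≠ i + 2 := by decide
theorem fin3_3 : ∀ i : Fin 3, i + 1 ≠ i + 2 := by decide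
theorem fin3_4 : ∀ i s : Fin 3, i ≠ s → (i + 1 = s ∧ i + 2 ≠ s) ∨ (i + 1 ≠ s ∧ i + 2 = s) := by
  decide

theorem G_mem {s : Fin m → Fin 3} {v : Vx m} : eG v ∈ Fs s ↔ v.2 = s v.1 := by
  constructor
  · intro h
    have := (h v.1).2
    rw [col_g, map_sub, map_neg, map_sub, cG_T, cG_T, sub_self, sub_zero, neg_eq_zero] at this
    exact (cG_F_zero_iff v.1 (s v.1) v.2).1 this
  · intro h t
    rw [col_g, map_sub, map_neg, map_sub, map_sub, map_neg, map_sub, cG_T, cG_T, cV_T, cV_T, cV_F]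
    have h1 : (t, s t) ≠ (v.1, v.2 + 1) := by
      intro hh
      rw [Prod.mk.injEq] at hh
      obtain ⟨rfl, h2⟩ := hh
      rw [← h] at h2
      exact fin3_1 _ h2
    have h2 : (t, s t) ≠ (v.1, v.2 + 2) := by
      intro hh
      rw [Prod.mk.injEq] at hh
      obtain ⟨rfl, h2⟩ := hh
      rw [← h] at h2
      exact fin3_2 _ h2
    rw [if_neg h1, if_neg h2]
    have := (F_mem.2 h t).2
    rw [this]
    simp

theorem Fs_flat (s : Fin m → Fin 3) : IsFlat (Am m) (Fs s) := by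
  intro e he
  apply rk_lt_of_notMem
  have : ∃ t, ¬ (cV (t, s t) ((Am m).col e) = 0 ∧ cG t (s t) ((Am m).col e) = 0) := by
    by_contra hcon
    push Not at hcon
    exact he fun t => ⟨(hcon t).1, (hcon t).2⟩
  obtain ⟨t, ht⟩ := this
  by_cases h : cV (t, s t) ((Am m).col e) = 0
  · exact notMem_span_of_functional _ (cG t (s t)) (fun x hx => (hx t).2) fun h2 => ht ⟨h, h2⟩
  · exact notMem_span_of_functional _ (cV (t, s t)) (fun x hx => (hx t).1) h

/-- Connectedness relation. -/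
def Conn (F : Set (El m)) (e e' : El m) : Prop :=
  (Pi.single e 1 - Pi.single e' 1 : El m → ℝ) ∈ vectorSpan ℝ (fullVecs (Am m) F)

theorem Conn.symm {F : Set (El m)} {e e' : El m} (h : Conn F e e') : Conn F e' e := by
  have := Submodule.neg_mem _ h
  rwa [neg_sub] at this

theorem Conn.trans {F : Set (El m)} {e e' e'' : El m} (h : Conn F e e') (h' : Conn F e' e'') :
    Conn F e e'' := by
  have := Submodule.add_mem _ h h'
  rwa [sub_add_sub_cancel] at this

theorem Conn.refl (F : Set (El m)) (e : El m) : Conn F e e := by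
  simp [Conn]

theorem mem_span_col {X : Set (El m)} {e : El m} (h : e ∈ X) :
    (Am m).col e ∈ Submodule.span ℝ ((Am m).col '' X) :=
  Submodule.subset_span (Set.mem_image_of_mem _ h)

theorem conn_edge1 {F X : Set (El m)} (p : Ed m)
    (hX0 : ∀ x ∈ X, cV p.1.1 ((Am m).col x) = 0) (hX1 : eT p.1.2 ∈ X)
    (hF : (X ⊆ F ∧ eT p.1.1 ∈ F ∧ eE p ∈ F) ∨ (F ⊆ X ∧ eT p.1.1 ∉ F ∧ eE p ∉ F)) :
    Conn F (eT p.1.1) (eE p) := by
  apply exchange (Am m) (X := X) (α := 1) _ one_ne_zero _ hF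
  · exact notMem_span_of_functional _ (cV p.1.1) hX0 (by rw [cV_T, if_pos rfl]; exact one_ne_zero)
  · rw [col_edge, one_smul, sub_sub_cancel_left]
    exact Submodule.neg_mem _ (mem_span_col hX1)

theorem conn_edge2 {F X : Set (El m)} (p : Ed m)
    (hX0 : ∀ x ∈ X, cV p.1.2 ((Am m).col x) = 0) (hX1 : eT p.1.1 ∈ X)
    (hF : (X ⊆ F ∧ eT p.1.2 ∈ F ∧ eE p ∈ F) ∨ (F ⊆ X ∧ eT p.1.2 ∉ F ∧ eE p ∉ F)) :
    Conn F (eT p.1.2) (eE p) := by
  apply exchange (Am m) (X := X) (α := -1) _ (by norm_num) _ hF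
  · exact notMem_span_of_functional _ (cV p.1.2) hX0 (by rw [cV_T, if_pos rfl]; exact one_ne_zero)
  · rw [col_edge, neg_smul, one_smul, sub_neg_eq_add, sub_add_cancel]
    exact mem_span_col hX1

theorem conn_edge_in {F : Set (El m)} (p : Ed m) (h1 : eT p.1.1 ∈ F) (h2 : eT p.1.2 ∈ F)
    (h3 : eE p ∈ F) : Conn F (eT p.1.1) (eE p) ∧ Conn F (eT p.1.2) (eE p) := by
  constructor
  · apply conn_edge1 (X := {eT p.1.2}) p _ rfl (Or.inl ⟨by simpa using h2, h1, h3⟩)
    rintro x rfl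
    rw [cV_T, if_neg p.ne]
  · apply conn_edge2 (X := {eT p.1.1}) p _ rfl (Or.inl ⟨by simpa using h1, h2, h3⟩)
    rintro x rfl
    rw [cV_T, if_neg p.ne.symm]

theorem conn_top_in {s : Fin m → Fin 3} {u v : Vx m} (hu : u.2 ≠ s u.1) (hv : v.2 ≠ s v.1) :
    Conn (Fs s) (eT u) (eT v) := by
  by_cases h : u = v
  · subst h; exact Conn.refl _ _
  · obtain ⟨p, ⟨rfl, rfl⟩ | ⟨rfl, rfl⟩⟩ := exists_edge h
    · have := conn_edge_in p (T_mem.2 hu) (T_mem.2 hv) (E_mem.2 ⟨hu, hv⟩)
      exact this.1.trans this.2.symm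
    · have := conn_edge_in p (T_mem.2 hv) (T_mem.2 hu) (E_mem.2 ⟨hv, hu⟩)
      exact this.2.trans this.1.symm

theorem conn_top_univ {u v : Vx m} : Conn (Set.univ) (eT u) (eT v) := by
  by_cases h : u = v
  · subst h; exact Conn.refl _ _
  · obtain ⟨p, ⟨rfl, rfl⟩ | ⟨rfl, rfl⟩⟩ := exists_edge h
    · have := conn_edge_in p (Set.mem_univ _) (Set.mem_univ _) (Set.mem_univ _)
      exact this.1.trans this.2.symm
    · have := conn_edge_in p (Set.mem_univ _) (Set.mem_univ _) (Set.mem_univ _)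
      exact this.2.trans this.1.symm

theorem Fs_cV {s : Fin m → Fin 3} {o : Vx m} (ho : o.2 = s o.1) {x : El m} (hx : x ∈ Fs s) :
    cV o ((Am m).col x) = 0 := by
  have := (hx o.1).1
  rwa [← ho] at this

theorem conn_edge_out1 {s : Fin m → Fin 3} (p : Ed m) (h : p.1.1.2 = s p.1.1.1) :
    Conn (Fs s) (eT p.1.1) (eE p) := by
  apply conn_edge1 (X := insert (eT p.1.2) (Fs s)) p _ (Set.mem_insert _ _)
    (Or.inr ⟨Set.subset_insert _ _, fun h1 => T_mem.1 h1 h, fun h1 => (E_mem.1 h1).1 h⟩)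
  rintro x (rfl | hx)
  · rw [cV_T, if_neg p.ne]
  · exact Fs_cV h hx

theorem conn_edge_out2 {s : Fin m → Fin 3} (p : Ed m) (h : p.1.2.2 = s p.1.2.1) :
    Conn (Fs s) (eT p.1.2) (eE p) := by
  apply conn_edge2 (X := insert (eT p.1.1) (Fs s)) p _ (Set.mem_insert _ _)
    (Or.inr ⟨Set.subset_insert _ _, fun h1 => T_mem.1 h1 h, fun h1 => (E_mem.1 h1).2 h⟩)
  rintro x (rfl | hx)
  · rw [cV_T, if_neg p.ne.symm]
  · exact Fs_cV h hx

theorem conn_top_out {s : Fin m → Fin 3} {u v : Vx m} (hu : u.2 = s u.1) (hv : v.2 = s v.1) :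
    Conn (Fs s) (eT u) (eT v) := by
  by_cases h : u = v
  · subst h; exact Conn.refl _ _
  · obtain ⟨p, ⟨rfl, rfl⟩ | ⟨rfl, rfl⟩⟩ := exists_edge h
    · exact (conn_edge_out1 p hu).trans (conn_edge_out2 p hv).symm
    · exact (conn_edge_out2 p hu).trans (conn_edge_out1 p hv).symm

/-- In-chain for the gadget elements. -/
theorem conn_fg_in {s : Fin m → Fin 3} (v : Vx m) (hv : v.2 = s v.1) :
    Conn (Fs s) (eF v) (eG v) := by
  obtain ⟨t, i⟩ := v
  simp only at hv
  subst hv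
  have m1 : eT (t, s t + 1) ∈ Fs s := T_mem.2 (fin3_1 _).symm
  have m2 : eT (t, s t + 2) ∈ Fs s := T_mem.2 (fin3_2 _).symm
  apply exchange (Am m) (X := {eT (t, s t + 1), eT (t, s t + 2)}) (α := -1) _ (by norm_num)
  · rw [col_g, neg_smul, one_smul]
    have : -(Am m).col (eF (t, s t)) - ((Am m).col (eT (t, s t + 1)) - (Am m).col (eT (t, s t + 2)))
        - -(Am m).col (eF (t, s t))
        = (Am m).col (eT (t, s t + 2)) - (Am m).col (eT (t, s t + 1)) := by abel
    rw [this]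
    exact Submodule.sub_mem _ (mem_span_col (by simp)) (mem_span_col (by simp))
  · left
    refine ⟨?_, F_mem.2 rfl, G_mem.2 rfl⟩
    rintro x (rfl | rfl)
    · exact m1
    · exact m2
  · apply notMem_span_of_functional _ (cG t (s t + 1))
    · rintro x (rfl | rfl)
      · exact cG_T _ _ _
      · exact cG_T _ _ _
    · intro h
      exact fin3_1 _ ((cG_F_zero_iff _ _ _).1 h)

theorem conn_g_top_in {s : Fin m → Fin 3} (t : Fin m) :
    Conn (Fs s) (eT (t, s t + 1)) (eG (t, s t)) := by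
  have m1 : eT (t, s t + 1) ∈ Fs s := T_mem.2 (fin3_1 _).symm
  have m2 : eT (t, s t + 2) ∈ Fs s := T_mem.2 (fin3_2 _).symm
  apply exchange (Am m) (X := {eF (t, s t), eT (t, s t + 2)}) (α := -1) _ (by norm_num)
  · rw [col_g, neg_smul, one_smul]
    have : -(Am m).col (eF (t, s t)) - ((Am m).col (eT (t, s t + 1)) - (Am m).col (eT (t, s t + 2)))
        - -(Am m).col (eT (t, s t + 1))
        = (Am m).col (eT (t, s t + 2)) - (Am m).col (eF (t, s t)) := by abel
    rw [this]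
    exact Submodule.sub_mem _ (mem_span_col (by simp)) (mem_span_col (by simp))
  · left
    refine ⟨?_, m1, G_mem.2 rfl⟩
    rintro x (rfl | rfl)
    · exact F_mem.2 rfl
    · exact m2
  · apply notMem_span_of_functional _ (cV (t, s t + 1))
    · rintro x (rfl | rfl)
      · exact cV_F _ _
      · rw [cV_T, if_neg]
        simp [fin3_3]
    · rw [cV_T, if_pos rfl]; exact one_ne_zero

theorem top_mem_or {s : Fin m → Fin 3} (t : Fin m) (i : Fin 3) :
    eT (t, i) ∈ insert (eT (t, s t)) (Fs s) := by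
  by_cases h : i = s t
  · rw [h]; exact Set.mem_insert _ _
  · exact Set.mem_insert_of_mem _ (T_mem.2 h)

theorem conn_fg_out {s : Fin m → Fin 3} (t : Fin m) (i : Fin 3) (hi : i ≠ s t) :
    Conn (Fs s) (eF (t, i)) (eG (t, i)) := by
  apply exchange (Am m) (X := insert (eT (t, s t)) (Fs s)) (α := -1) _ (by norm_num)
  · rw [col_g, neg_smul, one_smul]
    have : -(Am m).col (eF (t, i)) - ((Am m).col (eT (t, i + 1)) - (Am m).col (eT (t, i + 2)))
        - -(Am m).col (eF (t, i))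
        = (Am m).col (eT (t, i + 2)) - (Am m).col (eT (t, i + 1)) := by abel
    rw [this]
    exact Submodule.sub_mem _ (mem_span_col (top_mem_or _ _)) (mem_span_col (top_mem_or _ _))
  · right
    exact ⟨Set.subset_insert _ _, fun h => hi (F_mem.1 h), fun h => hi (G_mem.1 h)⟩
  · apply notMem_span_of_functional _ (cG t (s t))
    · rintro x (rfl | hx)
      · exact cG_T _ _ _
      · exact (hx t).2
    · intro h
      exact hi ((cG_F_zero_iff _ _ _).1 h)

theorem conn_g_top_out {s : Fin m → Fin 3} (t : Fin m) (i : Fin 3) (hi : i ≠ s t) :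
    Conn (Fs s) (eT (t, s t)) (eG (t, i)) := by
  have hF : (insert (eF (t, i)) (Fs s) ⊆ Fs s ∧ eT (t, s t) ∈ Fs s ∧ eG (t, i) ∈ Fs s) ∨
      (Fs s ⊆ insert (eF (t, i)) (Fs s) ∧ eT (t, s t) ∉ Fs s ∧ eG (t, i) ∉ Fs s) := by
    right
    exact ⟨Set.subset_insert _ _, fun h => T_mem.1 h rfl, fun h => hi (G_mem.1 h)⟩
  have hns : (Am m).col (eT (t, s t)) ∉ Submodule.span ℝ ((Am m).col '' (insert (eF (t, i)) (Fs s))) := by
    apply notMem_span_of_functional _ (cV (t, s t))
    · rintro x (rfl | hx)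
      · exact cV_F _ _
      · exact (hx t).1
    · rw [cV_T, if_pos rfl]; exact one_ne_zero
  rcases fin3_4 i (s t) hi with ⟨h1, h2⟩ | ⟨h1, h2⟩
  · apply exchange (Am m) (X := insert (eF (t, i)) (Fs s)) hns (α := -1) (by norm_num) _ hF
    rw [col_g, neg_smul, one_smul]
    simp only
    rw [h1]
    have : -(Am m).col (eF (t, i)) - ((Am m).col (eT (t, s t)) - (Am m).col (eT (t, i + 2)))
        - -(Am m).col (eT (t, s t))
        = (Am m).col (eT (t, i + 2)) - (Am m).col (eF (t, i)) := by abel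
    rw [this]
    exact Submodule.sub_mem _ (mem_span_col (Set.mem_insert_of_mem _ (T_mem.2 h2)))
      (mem_span_col (Set.mem_insert _ _))
  · apply exchange (Am m) (X := insert (eF (t, i)) (Fs s)) hns (α := 1) (by norm_num) _ hF
    rw [col_g, one_smul]
    simp only
    rw [h2]
    have : -(Am m).col (eF (t, i)) - ((Am m).col (eT (t, i + 1)) - (Am m).col (eT (t, s t)))
        - (Am m).col (eT (t, s t))
        = -(Am m).col (eT (t, i + 1)) - (Am m).col (eF (t, i)) := by abel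
    rw [this]
    exact Submodule.sub_mem _ (Submodule.neg_mem _
      (mem_span_col (Set.mem_insert_of_mem _ (T_mem.2 h1)))) (mem_span_col (Set.mem_insert _ _))

theorem Fs_isFlacet (hm : 0 < m) (s : Fin m → Fin 3) : IsFlacet (Am m) (Fs s) := by
  set t0 : Fin m := ⟨0, hm⟩
  apply isFlacet_of (Am m) (Fs_flat s) (a := eT (t0, s t0 + 1)) (b := eT (t0, s t0))
    (T_mem.2 (fin3_1 _).symm) (fun h => T_mem.1 h rfl)
  · intro e he
    have ha : ∀ v : Vx m, v.2 ≠ s v.1 → Conn (Fs s) (eT v) (eT (t0, s t0 + 1)) :=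
      fun v hv => conn_top_in hv (fin3_1 _).symm
    change Conn (Fs s) e _
    rcases e with v | p | ⟨t, i⟩ | ⟨t, i⟩
    · exact ha v (T_mem.1 he)
    · have h2 := E_mem.1 he
      exact (conn_edge_in p (T_mem.2 h2.1) (T_mem.2 h2.2) he).1.symm.trans (ha _ h2.1)
    · have h2 : i = s t := F_mem.1 he
      subst h2
      exact ((conn_fg_in (t, s t) rfl).trans (conn_g_top_in t).symm).trans
        (ha _ (fin3_1 _).symm)
    · have h2 : i = s t := G_mem.1 he
      subst h2
      exact (conn_g_top_in t).symm.trans (ha _ (fin3_1 _).symm)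
  · intro e he
    have ha : ∀ v : Vx m, v.2 = s v.1 → Conn (Fs s) (eT v) (eT (t0, s t0)) :=
      fun v hv => conn_top_out hv rfl
    change Conn (Fs s) e _
    rcases e with v | p | ⟨t, i⟩ | ⟨t, i⟩
    · have h2 : v.2 = s v.1 := by
        by_contra hcon; exact he (T_mem.2 hcon)
      exact ha v h2
    · by_cases h1 : p.1.1.2 = s p.1.1.1
      · exact (conn_edge_out1 p h1).symm.trans (ha _ h1)
      · by_cases h2 : p.1.2.2 = s p.1.2.1
        · exact (conn_edge_out2 p h2).symm.trans (ha _ h2)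
        · exact absurd (E_mem.2 ⟨h1, h2⟩) he
    · have h2 : i ≠ s t := fun hcon => he (F_mem.2 hcon)
      exact ((conn_fg_out t i h2).trans (conn_g_top_out t i h2).symm).trans (ha _ rfl)
    · have h2 : i ≠ s t := fun hcon => he (G_mem.2 hcon)
      exact (conn_g_top_out t i h2).symm.trans (ha _ rfl)
  · exact conn_top_univ

end Pool.R447.HN
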