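import Mathlib

/-!
# Ghouila-Houri's criterion (sufficiency), over the integers

If the rows of every finite set `S` of rows of an integer matrix can be signed such that every
column sum is in `{-1,0,1}`, then the matrix is totally unimodular.
-/

namespace Pool.R447.HN

open Matrix

/-- Every set of rows has a signing with all column sums in `{-1,0,1}`. -/
def Signable {α β : Type*} (M : Matrix α β ℤ) : Prop :=
  ∀ S : Finset α, ∃ ε : α → ℤ, (∀ i ∈ S, ε i = 1 ∨ ε i = -1) ∧
    ∀ j, |∑ i ∈ S, ε i * M i j| ≤ 1

theorem Signable.submatrix {α β γ δ : Type*} {M : Matrix α β ℤ} (h : Signable M)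
    (f : γ → α) (g : δ → β) (hf : Function.Injective f) : Signable (M.submatrix f g) := by
  classical
  intro S
  obtain ⟨ε, h1, h2⟩ := h (S.image f)
  refine ⟨fun i => ε (f i), fun i hi => h1 _ (Finset.mem_image_of_mem f hi), fun j => ?_⟩
  have := h2 (g j)
  rwa [Finset.sum_image (fun a _ b _ hab => hf hab)] at this

theorem parity_aux {a b : ℤ} (ha : a = 1 ∨ a = -1) (hb : |b| ≤ 1) (hb0 : b ≠ 0) :
    ∃ c, a = b + 2 * c := by
  rw [abs_le] at hb
  have : b = 1 ∨ b = -1 := by omega
  rcases ha with rfl | rfl <;> rcases this with rfl | rfl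
  · exact ⟨0, by norm_num⟩
  · exact ⟨1, by norm_num⟩
  · exact ⟨-1, by norm_num⟩
  · exact ⟨0, by norm_num⟩

theorem Signable.abs_det_le : ∀ (k : ℕ) (M : Matrix (Fin k) (Fin k) ℤ), Signable M →
    |M.det| ≤ 1 := by
  intro k
  induction k with
  | zero => intro M _; simp
  | succ k ih =>
    intro M hM
    by_cases hd : M.det = 0
    · simp [hd]
    set b : Fin (k+1) → ℤ := fun j => M.adjugate 0 j with hb
    have hb1 : ∀ j, |b j| ≤ 1 := by
      intro j
      rw [hb]
      simp only
      rw [Matrix.adjugate_fin_succ_eq_det_submatrix, abs_mul, abs_pow, abs_neg, abs_one,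
        one_pow, one_mul]
      exact ih _ (hM.submatrix _ _ (Fin.succAbove_right_injective))
    have hbM : ∀ l, ∑ j, b j * M j l = if (0 : Fin (k+1)) = l then M.det else 0 := by
      intro l
      have := congrFun (congrFun (Matrix.adjugate_mul M) 0) l
      rw [Matrix.mul_apply] at this
      rw [this, Matrix.smul_apply, Matrix.one_apply]
      split_ifs <;> simp
    obtain ⟨ε, h1, h2⟩ := hM (Finset.univ.filter fun j => b j ≠ 0)
    set z : Fin (k+1) → ℤ := fun j => if b j ≠ 0 then ε j else 0 with hz
    have hzM : ∀ l, |∑ j, z j * M j l| ≤ 1 := by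
      intro l
      have := h2 l
      rw [Finset.sum_filter] at this
      convert this using 3 with j _
      simp only [hz]
      split_ifs <;> simp
    have hzb : ∀ j, ∃ c, z j = b j + 2 * c := by
      intro j
      simp only [hz]
      split_ifs with hj
      · exact parity_aux (h1 j (by simp [hj])) (hb1 j) hj
      · push Not at hj
        exact ⟨0, by simp [hj]⟩
    choose c hc using hzb
    have hz0 : ∀ l, l ≠ 0 → ∑ j, z j * M j l = 0 := by
      intro l hl
      have e1 : ∑ j, z j * M j l = 2 * ∑ j, c j * M j l := by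
        have h3 := hbM l
        rw [if_neg (Ne.symm hl)] at h3
        calc ∑ j, z j * M j l = ∑ j, (b j * M j l + 2 * (c j * M j l)) :=
              Finset.sum_congr rfl fun j _ => by rw [hc j]; ring
          _ = _ := by rw [Finset.sum_add_distrib, h3, zero_add, Finset.mul_sum]
      have h4 := hzM l
      rw [e1] at h4 ⊢
      rw [abs_le] at h4
      omega
    set s : ℤ := ∑ j, z j * M j 0 with hs
    have hs1 : |s| ≤ 1 := hzM 0
    have hv : (fun j => M.det * z j - s * b j) = 0 := by
      apply Matrix.eq_zero_of_vecMul_eq_zero hd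
      ext l
      simp only [Matrix.vecMul, dotProduct, Pi.zero_apply]
      have : ∑ j, (M.det * z j - s * b j) * M j l
          = M.det * (∑ j, z j * M j l) - s * ∑ j, b j * M j l := by
        rw [Finset.mul_sum, Finset.mul_sum, ← Finset.sum_sub_distrib]
        exact Finset.sum_congr rfl fun j _ => by ring
      rw [this, hbM l]
      by_cases hl : l = 0
      · subst hl
        rw [if_pos rfl, ← hs]; ring
      · rw [hz0 l hl, if_neg (Ne.symm hl)]; ring
    have hex : ∃ j, b j ≠ 0 := by
      by_contra hcon
      push Not at hcon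
      have := hbM 0
      rw [if_pos rfl] at this
      apply hd
      rw [← this]
      exact Finset.sum_eq_zero fun j _ => by rw [hcon j, zero_mul]
    obtain ⟨j, hj⟩ := hex
    have h5 := congrFun hv j
    simp only [Pi.zero_apply] at h5
    have hzj : |z j| = 1 := by
      simp only [hz]
      rw [if_pos hj]
      rcases h1 j (by simp [hj]) with h | h <;> rw [h] <;> simp
    have h6 : |M.det| * |z j| = |s| * |b j| := by
      rw [← abs_mul, ← abs_mul]
      congr 1
      linarith
    rw [hzj, mul_one] at h6
    rw [h6]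
    calc |s| * |b j| ≤ 1 * 1 := mul_le_mul hs1 (hb1 j) (abs_nonneg _) zero_le_one
      _ = 1 := one_mul 1

theorem mem_range_sign {x : ℤ} (h : |x| ≤ 1) : x ∈ Set.range (SignType.cast : SignType → ℤ) := by
  rw [abs_le] at h
  have : x = -1 ∨ x = 0 ∨ x = 1 := by omega
  rcases this with rfl | rfl | rfl
  · exact ⟨-1, rfl⟩
  · exact ⟨0, rfl⟩
  · exact ⟨1, rfl⟩

/-- Sufficiency in Ghouila-Houri's theorem. -/
theorem Signable.isTotallyUnimodular {α β : Type*} {M : Matrix α β ℤ} (h : Signable M) :
    M.IsTotallyUnimodular := by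
  intro k f g hf hg
  exact mem_range_sign ((h.submatrix f g hf).abs_det_le k _)

/-- Real version. -/
theorem Signable.isTotallyUnimodular_real {α β : Type*} {M : Matrix α β ℤ} (h : Signable M) :
    (M.map (Int.cast : ℤ → ℝ)).IsTotallyUnimodular := by
  intro k f g hf hg
  obtain ⟨s, hs⟩ := h.isTotallyUnimodular k f g hf hg
  refine ⟨s, ?_⟩
  have : (M.map (Int.cast : ℤ → ℝ)).submatrix f g = (M.submatrix f g).map (Int.cast : ℤ → ℝ) := rfl
  rw [this, ← Int.cast_det, ← hs]
  cases s <;> simp

end Pool.R447.HN
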