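import Pool.Agent.R447.HN.Flac
import Pool.Agent.R447.HN.Comp2

/-!
# A base has full intersection with at most `2^m` of the `3^m` flacets
-/

set_option linter.unusedSectionVars false

namespace Pool.R447.HN

open Matrix

variable {m : ℕ}

/-- Gadget elements. -/
def Gad (t : Fin m) : Set (El m) := {e | (∃ i, e = eF (t, i)) ∨ (∃ i, e = eG (t, i))}

theorem cG_of_notMem {t : Fin m} {e : El m} (he : e ∉ Gad t) (j : Fin 3) :
    cG t j ((Am m).col e) = 0 := by
  rcases e with v | p | ⟨t', i⟩ | ⟨t', i⟩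
  · exact cG_T _ _ _
  · rw [col_edge, map_sub, cG_T, cG_T, sub_zero]
  · have : t ≠ t' := by
      rintro rfl; exact he (Or.inl ⟨i, rfl⟩)
    rw [cG_F, if_neg this]
  · have : t ≠ t' := by
      rintro rfl; exact he (Or.inr ⟨i, rfl⟩)
    rw [col_g, map_sub, map_neg, map_sub, cG_T, cG_T, cG_F, if_neg this]
    simp

theorem sum_F (t : Fin m) (j : Fin 3) :
    (Am m).col (eF (t, j)) + (Am m).col (eF (t, j + 1)) + (Am m).col (eF (t, j + 2)) = 0 := by
  have h1 : ∀ j : Fin 3, pf j + pf (j+1) + pf (j+2) = 0 := by decide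
  have h2 : ∀ j : Fin 3, qf j + qf (j+1) + qf (j+2) = 0 := by decide
  have h1' : (pf j : ℝ) + pf (j+1) + pf (j+2) = 0 := by exact_mod_cast h1 j
  have h2' : (qf j : ℝ) + qf (j+1) + qf (j+2) = 0 := by exact_mod_cast h2 j
  funext r
  rcases r with v | ⟨t', _ | _⟩
  · simp [Am, Az, δ, Matrix.col]
  · by_cases h : t' = t <;> simp [Am, Az, δ, Matrix.col, h, h1']
  · by_cases h : t' = t <;> simp [Am, Az, δ, Matrix.col, h, h2']

/-- The key step: at a gadget, a base hitting `F_s` contains `f` or `g` of index `s t`. -/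
theorem hit_step {B : Set (El m)} (hB : LinearIndepOn ℝ (Am m).col B) {s : Fin m → Fin 3}
    (h : (B ∩ Fs s).ncard = rk (Am m) (Fs s)) (t : Fin m) :
    ∃ u ∈ B, (u = eF (t, s t) ∨ u = eG (t, s t)) ∧ ∃ ε : ℝ, ε ≠ 0 ∧
      (Am m).col (eF (t, s t)) - ε • (Am m).col u ∈ Submodule.span ℝ ((Am m).col '' (B \ Gad t)) := by
  classical
  by_cases hf : eF (t, s t) ∈ B
  · exact ⟨_, hf, Or.inl rfl, 1, one_ne_zero, by simp⟩
  have hs := span_of_full (Am m) hB h
  have hmem : (Am m).col (eF (t, s t)) ∈ Submodule.span ℝ ((Am m).col '' (B ∩ Fs s)) := by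
    rw [hs]; exact mem_span_col (F_mem.2 rfl)
  have hker : Submodule.span ℝ ((Am m).col '' (B \ Gad t)) ≤ LinearMap.ker (cG t (s t + 1)) := by
    rw [Submodule.span_le]
    rintro _ ⟨x, hx, rfl⟩
    exact cG_of_notMem hx.2 _
  have hne : cG t (s t + 1) ((Am m).col (eF (t, s t))) ≠ 0 := fun h0 =>
    fin3_1 _ ((cG_F_zero_iff _ _ _).1 h0)
  by_cases hg : eG (t, s t) ∈ B
  · have hsub : B ∩ Fs s ⊆ insert (eG (t, s t)) (B \ Gad t) := by
      rintro x ⟨hxB, hxF⟩
      by_cases hx : x ∈ Gad t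
      · rcases hx with ⟨i, rfl⟩ | ⟨i, rfl⟩
        · have : i = s t := F_mem.1 hxF
          subst this
          exact absurd hxB hf
        · have : i = s t := G_mem.1 hxF
          subst this
          exact Set.mem_insert _ _
      · exact Set.mem_insert_of_mem _ ⟨hxB, hx⟩
    have h2 := Submodule.span_mono (Set.image_mono (f := (Am m).col) hsub) hmem
    rw [Set.image_insert_eq, Submodule.mem_span_insert] at h2
    obtain ⟨c, y, hy, he⟩ := h2
    have hy0 : cG t (s t + 1) y = 0 := hker hy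
    have hc : c ≠ 0 := by
      rintro rfl
      rw [zero_smul, zero_add] at he
      rw [he] at hne
      exact hne hy0
    refine ⟨_, hg, Or.inr rfl, c, hc, ?_⟩
    rw [he, add_sub_cancel_left]
    exact hy
  · exfalso
    have hsub : B ∩ Fs s ⊆ B \ Gad t := by
      rintro x ⟨hxB, hxF⟩
      refine ⟨hxB, ?_⟩
      rintro (⟨i, rfl⟩ | ⟨i, rfl⟩)
      · have : i = s t := F_mem.1 hxF
        subst this
        exact hf hxB
      · have : i = s t := G_mem.1 hxF
        subst this
        exact hg hxB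
    exact hne (hker (Submodule.span_mono (Set.image_mono hsub) hmem))

/-- A base cannot hit flacets with all three values at a gadget. -/
theorem not_all_three {B : Set (El m)} (hB : LinearIndepOn ℝ (Am m).col B) (t : Fin m)
    (h : ∀ j : Fin 3, ∃ s : Fin m → Fin 3, s t = j ∧ (B ∩ Fs s).ncard = rk (Am m) (Fs s)) :
    False := by
  classical
  have key : ∀ j : Fin 3, ∃ u ∈ B, (u = eF (t, j) ∨ u = eG (t, j)) ∧ ∃ ε : ℝ, ε ≠ 0 ∧
      (Am m).col (eF (t, j)) - ε • (Am m).col u ∈
        Submodule.span ℝ ((Am m).col '' (B \ Gad t)) := by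
    intro j
    obtain ⟨s, rfl, hs⟩ := h j
    exact hit_step hB hs t
  choose u huB hu ε hε hY using key
  have hgad : ∀ j, u j ∈ Gad t := by
    intro j
    rcases hu j with h1 | h1
    · exact Or.inl ⟨j, h1⟩
    · exact Or.inr ⟨j, h1⟩
  have hune : ∀ i j, i ≠ j → u i ≠ u j := by
    intro i j hij heq
    rcases hu i with h1 | h1 <;> rcases hu j with h2 | h2 <;> rw [h1, h2] at heq <;>
      simp at heq <;> exact hij heq
  have hmono : Submodule.span ℝ ((Am m).col '' (B \ Gad t)) ≤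
      Submodule.span ℝ ((Am m).col '' (B \ {u 0})) := by
    apply Submodule.span_mono
    apply Set.image_mono
    rintro x ⟨hx, hx2⟩
    exact ⟨hx, by rintro rfl; exact hx2 (hgad 0)⟩
  have hu1 : (Am m).col (u 1) ∈ Submodule.span ℝ ((Am m).col '' (B \ {u 0})) :=
    mem_span_col ⟨huB 1, hune 1 0 (by decide)⟩
  have hu2 : (Am m).col (u 2) ∈ Submodule.span ℝ ((Am m).col '' (B \ {u 0})) :=
    mem_span_col ⟨huB 2, hune 2 0 (by decide)⟩
  have hsum := sum_F t 0
  have e1 : ε 0 • (Am m).col (u 0) = -(((Am m).col (eF (t, 0)) - ε 0 • (Am m).col (u 0))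
      + ((Am m).col (eF (t, 1)) - ε 1 • (Am m).col (u 1))
      + ((Am m).col (eF (t, 2)) - ε 2 • (Am m).col (u 2)))
      - ε 1 • (Am m).col (u 1) - ε 2 • (Am m).col (u 2) := by
    have h3 : (Am m).col (eF (t, 0)) + (Am m).col (eF (t, 1)) + (Am m).col (eF (t, 2)) = 0 := hsum
    have h4 : (Am m).col (eF (t, 0)) = -((Am m).col (eF (t, 1)) + (Am m).col (eF (t, 2))) := by
      rw [eq_neg_iff_add_eq_zero, ← add_assoc]; exact h3
    rw [h4]
    abel
  have e2 : ε 0 • (Am m).col (u 0) ∈ Submodule.span ℝ ((Am m).col '' (B \ {u 0})) := by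
    rw [e1]
    refine Submodule.sub_mem _ (Submodule.sub_mem _ (Submodule.neg_mem _ (Submodule.add_mem _
      (Submodule.add_mem _ (hmono (hY 0)) (hmono (hY 1))) (hmono (hY 2)))) ?_) ?_
    · exact Submodule.smul_mem _ _ hu1
    · exact Submodule.smul_mem _ _ hu2
  have e3 : (Am m).col (u 0) ∈ Submodule.span ℝ ((Am m).col '' (B \ {u 0})) := by
    have := Submodule.smul_mem _ (ε 0)⁻¹ e2
    rwa [smul_smul, inv_mul_cancel₀ (hε 0), one_smul] at this
  have h2 : LinearIndepOn ℝ (Am m).col (insert (u 0) (B \ {u 0})) := by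
    rw [Set.insert_sdiff_singleton, Set.insert_eq_of_mem (huB 0)]; exact hB
  exact ((linearIndepOn_insert (by simp)).1 h2).2 e3

open Classical in
theorem card_hit_le {B : Set (El m)} (hB : LinearIndepOn ℝ (Am m).col B) :
    (Finset.univ.filter fun s : Fin m → Fin 3 =>
      (B ∩ Fs s).ncard = rk (Am m) (Fs s)).card ≤ 2 ^ m := by
  set S := Finset.univ.filter fun s : Fin m → Fin 3 =>
      (B ∩ Fs s).ncard = rk (Am m) (Fs s) with hS
  set J : Fin m → Finset (Fin 3) := fun t => S.image (fun s => s t) with hJ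
  have hJ2 : ∀ t, (J t).card ≤ 2 := by
    intro t
    by_contra hcon
    push Not at hcon
    have h3 : J t = Finset.univ := by
      rw [← Finset.card_eq_iff_eq_univ]
      apply le_antisymm (Finset.card_le_univ _)
      rw [Fintype.card_fin]
      exact hcon
    apply not_all_three hB t
    intro j
    have : j ∈ J t := by rw [h3]; exact Finset.mem_univ _
    rw [hJ] at this
    simp only [Finset.mem_image] at this
    obtain ⟨s, hs, hsj⟩ := this
    rw [hS, Finset.mem_filter] at hs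
    exact ⟨s, hsj, hs.2⟩
  have hsub : S ⊆ Fintype.piFinset J := by
    intro s hs
    rw [Fintype.mem_piFinset]
    intro t
    exact Finset.mem_image_of_mem _ hs
  calc S.card ≤ (Fintype.piFinset J).card := Finset.card_le_card hsub
    _ = ∏ t, (J t).card := Fintype.card_piFinset _
    _ ≤ ∏ _t : Fin m, 2 := Finset.prod_le_prod (fun _ _ => Nat.zero_le _) fun t _ => hJ2 t
    _ = 2 ^ m := by simp

theorem hitting_card (hm : 0 < m) (V : Finset (Set (El m))) (hV : IsHittingFamily (Am m) V) :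
    3 ^ m ≤ V.card * 2 ^ m := by
  classical
  have hcov : (Finset.univ : Finset (Fin m → Fin 3)) ⊆ V.biUnion fun B =>
      Finset.univ.filter fun s : Fin m → Fin 3 => (B ∩ Fs s).ncard = rk (Am m) (Fs s) := by
    intro s _
    obtain ⟨B, hB, hBs⟩ := hV.2 _ (Fs_isFlacet hm s)
    rw [Finset.mem_biUnion]
    exact ⟨B, hB, by simp [hBs]⟩
  have h1 := Finset.card_le_card hcov
  have h2 := Finset.card_biUnion_le_card_mul V (fun B =>
      Finset.univ.filter fun s : Fin m → Fin 3 => (B ∩ Fs s).ncard = rk (Am m) (Fs s)) (2 ^ m)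
      (fun B hB => card_hit_le (hV.1 B hB).1)
  calc 3 ^ m = (Finset.univ : Finset (Fin m → Fin 3)).card := by simp
    _ ≤ _ := h1
    _ ≤ _ := h2

theorem hittingNumber_ge (hm : 0 < m) : 3 ^ m ≤ hittingNumber (Am m) * 2 ^ m := by
  have hne : {k | ∃ V : Finset (Set (El m)), IsHittingFamily (Am m) V ∧ V.card = k}.Nonempty := by
    obtain ⟨V, hV⟩ := hitting_nonempty (Am m)
    exact ⟨_, V, hV, rfl⟩
  obtain ⟨V, hV, hk⟩ := Nat.sInf_mem hne
  have := hitting_card hm V hV
  rw [hk] at this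
  exact this

/-! ### Rank, loops -/

theorem span_univ : Submodule.span ℝ ((Am m).col '' Set.univ) = ⊤ := by
  classical
  rw [eq_top_iff, ← (Pi.basisFun ℝ (Rw m)).span_eq, Submodule.span_le]
  rintro _ ⟨r, rfl⟩
  rw [Pi.basisFun_apply]
  rcases r with v | ⟨t, _ | _⟩
  · have : (Pi.single (Sum.inl v) 1 : Rw m → ℝ) = (Am m).col (eT v) := by
      funext r; simp [Am, Az, δ, Matrix.col, Pi.single_apply]
    rw [this]; exact mem_span_col (Set.mem_univ _)
  · have : (Pi.single (Sum.inr (t, false)) 1 : Rw m → ℝ) = (Am m).col (eF (t, 0)) := by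
      funext r; simp [Am, Az, δ, Matrix.col, Pi.single_apply, pf, qf]
    rw [this]; exact mem_span_col (Set.mem_univ _)
  · have : (Pi.single (Sum.inr (t, true)) 1 : Rw m → ℝ) = (Am m).col (eF (t, 1)) := by
      funext r; simp [Am, Az, δ, Matrix.col, Pi.single_apply, pf, qf]
    rw [this]; exact mem_span_col (Set.mem_univ _)

theorem rk_univ : rk (Am m) Set.univ = Fintype.card (Rw m) := by
  rw [rk, span_univ, finrank_top, Module.finrank_fintype_fun_eq_card]

theorem card_Rw : Fintype.card (Rw m) = 5 * m := by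
  simp [Fintype.card_sum]; ring

theorem Am_loopless (e : El m) : (Am m).col e ≠ 0 := by
  intro h
  rcases e with v | p | v | ⟨t, i⟩
  · have := congrArg (cV v) h
    rw [cV_T, if_pos rfl, map_zero] at this
    exact one_ne_zero this
  · have := congrArg (cV p.1.1) h
    rw [col_edge, map_sub, cV_T, cV_T, if_pos rfl, if_neg p.ne, map_zero] at this
    norm_num at this
  · have := congrArg (cG v.1 (v.2 + 1)) h
    rw [map_zero] at this
    exact fin3_1 _ ((cG_F_zero_iff _ _ _).1 this)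
  · have := congrArg (cG t (i + 1)) h
    rw [col_g, map_zero, map_sub, map_neg, map_sub, cG_T, cG_T, sub_self, sub_zero,
      neg_eq_zero] at this
    exact fin3_1 _ ((cG_F_zero_iff _ _ _).1 this)

/-- No parallel columns: the matroid is simple. -/
theorem Am_simple {e e' : El m} {c : ℝ} (h : (Am m).col e = c • (Am m).col e') : e = e' := by
  have hc : c ≠ 0 := by
    rintro rfl; exact Am_loopless e (by rw [h, zero_smul])
  have hz : ∀ φ : (Rw m → ℝ) →ₗ[ℝ] ℝ, φ ((Am m).col e) = 0 ↔ φ ((Am m).col e') = 0 := by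
    intro φ; rw [h, map_smul, smul_eq_mul, mul_eq_zero]; simp [hc]
  clear h hc
  have gT : ∀ (t : Fin m) (s : Fin 3) (v : Vx m), cG t s ((Am m).col (Sum.inl v)) = 0 :=
    fun t s v => cG_T t s v
  have gE : ∀ (t : Fin m) (s : Fin 3) (p : Ed m),
      cG t s ((Am m).col (Sum.inr (Sum.inl p))) = 0 := fun t s p => by
    rw [col_edge, map_sub, cG_T, cG_T, sub_zero]
  have gG : ∀ (t : Fin m) (s : Fin 3) (v : Vx m),
      cG t s ((Am m).col (eG v)) = - cG t s ((Am m).col (eF v)) := fun t s v => by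
    rw [col_g, map_sub, map_neg, map_sub, cG_T, cG_T, sub_self, sub_zero]
  have gF : ∀ (t : Fin m) (i : Fin 3), cG t (i+1) ((Am m).col (eF (t, i))) ≠ 0 := fun t i h0 =>
    fin3_1 _ ((cG_F_zero_iff _ _ _).1 h0)
  have gF' : ∀ (t : Fin m) (i : Fin 3), cG t (i+1) ((Am m).col (eG (t, i))) ≠ 0 := fun t i h0 => by
    rw [gG, neg_eq_zero] at h0; exact gF t i h0
  have same : ∀ (t t' : Fin m) (i i' : Fin 3),
      (∀ s j, cG s j ((Am m).col (eF (t, i))) = 0 ↔ cG s j ((Am m).col (eF (t', i'))) = 0) →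
      t = t' ∧ i = i' := by
    intro t t' i i' hh
    have h1 : t = t' := by
      by_contra hne
      apply gF t i
      rw [hh]
      rw [cG_F, if_neg hne]
    subst h1
    exact ⟨rfl, (cG_F_zero_iff t i' i).1 ((hh t i').2 ((cG_F_zero_iff t i' i').2 rfl))⟩
  have vF : ∀ (o v : Vx m), cV o ((Am m).col (eF v)) = 0 := cV_F
  have vG : ∀ (v : Vx m), cV (v.1, v.2 + 1) ((Am m).col (eG v)) ≠ 0 := by
    intro v
    rw [col_g, map_sub, map_neg, map_sub, cV_T, cV_T, cV_F, if_pos rfl, if_neg (by simp)]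
    norm_num
  rcases e with v | p | ⟨t, i⟩ | ⟨t, i⟩ <;> rcases e' with v' | p' | ⟨t', i'⟩ | ⟨t', i'⟩
  · have := hz (cV v)
    rw [cV_T, cV_T, if_pos rfl] at this
    by_cases h1 : v = v'
    · rw [h1]
    · rw [if_neg h1] at this; norm_num at this
  · exfalso
    have h1 := hz (cV p'.1.1)
    have h2 := hz (cV p'.1.2)
    rw [col_edge, map_sub, cV_T, cV_T, cV_T, if_pos rfl, if_neg p'.ne] at h1
    rw [col_edge, map_sub, cV_T, cV_T, cV_T, if_pos rfl, if_neg p'.ne.symm] at h2
    by_cases h3 : p'.1.1 = v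
    · by_cases h4 : p'.1.2 = v
      · exact p'.ne (h3.trans h4.symm)
      · rw [if_neg h4] at h2; norm_num at h2
    · rw [if_neg h3] at h1; norm_num at h1
  · exact (gF t' i' ((hz _).1 (gT _ _ _))).elim
  · exact (gF' t' i' ((hz _).1 (gT _ _ _))).elim
  · exfalso
    have h1 := hz (cV p.1.1)
    have h2 := hz (cV p.1.2)
    rw [col_edge, map_sub, cV_T, cV_T, cV_T, if_pos rfl, if_neg p.ne] at h1
    rw [col_edge, map_sub, cV_T, cV_T, cV_T, if_pos rfl, if_neg p.ne.symm] at h2
    by_cases h3 : p.1.1 = v'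
    · by_cases h4 : p.1.2 = v'
      · exact p.ne (h3.trans h4.symm)
      · rw [if_neg h4] at h2; norm_num at h2
    · rw [if_neg h3] at h1; norm_num at h1
  · have h1 := hz (cV p.1.1)
    have h2 := hz (cV p.1.2)
    rw [col_edge, col_edge, map_sub, map_sub, cV_T, cV_T, cV_T, cV_T, if_pos rfl,
      if_neg p.ne] at h1
    rw [col_edge, col_edge, map_sub, map_sub, cV_T, cV_T, cV_T, cV_T, if_pos rfl,
      if_neg p.ne.symm] at h2
    have h3 : p.1.1 = p'.1.1 ∨ p.1.1 = p'.1.2 := by
      by_contra hcon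
      push Not at hcon
      rw [if_neg hcon.1, if_neg hcon.2] at h1
      norm_num at h1
    have h4 : p.1.2 = p'.1.1 ∨ p.1.2 = p'.1.2 := by
      by_contra hcon
      push Not at hcon
      rw [if_neg hcon.1, if_neg hcon.2] at h2
      norm_num at h2
    have k1 := p.2
    have k2 := p'.2
    rcases h3 with h3 | h3 <;> rcases h4 with h4 | h4
    · exact absurd (h3.trans h4.symm) p.ne
    · have : p = p' := Subtype.ext (Prod.ext h3 h4)
      rw [this]
    · rw [h3, h4] at k1
      exact absurd (lt_trans k1 k2) (lt_irrefl _)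
    · exact absurd (h3.trans h4.symm) p.ne
  · exact (gF t' i' ((hz _).1 (gE _ _ _))).elim
  · exact (gF' t' i' ((hz _).1 (gE _ _ _))).elim
  · exact (gF t i ((hz _).2 (gT _ _ _))).elim
  · exact (gF t i ((hz _).2 (gE _ _ _))).elim
  · obtain ⟨rfl, rfl⟩ := same t t' i i' fun s j => hz (cG s j)
    rfl
  · obtain ⟨rfl, rfl⟩ := same t t' i i' fun s j => by
      rw [← neg_eq_zero (a := cG s j ((Am m).col (eF (t', i')))), ← gG]; exact hz (cG s j)
    exact (vG (t, i) ((hz _).1 (vF _ _))).elim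
  · exact (gF' t i ((hz _).2 (gT _ _ _))).elim
  · exact (gF' t i ((hz _).2 (gE _ _ _))).elim
  · obtain ⟨rfl, rfl⟩ := same t t' i i' fun s j => by
      rw [← neg_eq_zero (a := cG s j ((Am m).col (eF (t, i)))), ← gG]; exact hz (cG s j)
    exact (vG (t, i) ((hz _).2 (vF _ _))).elim
  · obtain ⟨rfl, rfl⟩ := same t t' i i' fun s j => by
      rw [← neg_eq_zero (a := cG s j ((Am m).col (eF (t, i)))), ← gG,
        ← neg_eq_zero (a := cG s j ((Am m).col (eF (t', i')))), ← gG]; exact hz (cG s j)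
    rfl

theorem Am_completeRegular (hm : 0 < m) : IsCompleteRegular (Am m) :=
  ⟨Am_tu m, rk_univ, Am_loopless, Am_complete hm⟩

end Pool.R447.HN
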