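import Pool.Agent.R447.HN.GH
import Pool.Agent.R447.HN.Exch

/-!
# The matrices: a complete graph glued with `m` copies of `M*(K_{3,3})` along disjoint triangles
-/

set_option linter.unusedSectionVars false

namespace Pool.R447.HN

open Matrix

/-- Vertices other than the ground vertex. -/
abbrev Vx (m : ℕ) := Fin m × Fin 3
/-- Rows. -/
abbrev Rw (m : ℕ) := Vx m ⊕ (Fin m × Bool)
/-- An injective numbering of the vertices. -/
def key {m : ℕ} (v : Vx m) : ℕ := 3 * v.1 + v.2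
/-- Edges between non-ground vertices. -/
abbrev Ed (m : ℕ) := {p : Vx m × Vx m // key p.1 < key p.2}
/-- Columns: edges to the ground, other edges, `f`-elements and `g`-elements. -/
abbrev El (m : ℕ) := Vx m ⊕ (Ed m ⊕ (Vx m ⊕ Vx m))

/-- First gadget coordinate of `f_i`. -/
def pf : Fin 3 → ℤ := ![1, 0, -1]
/-- Second gadget coordinate of `f_i`. -/
def qf : Fin 3 → ℤ := ![0, 1, -1]

/-- Unit vector. -/
def δ {m : ℕ} (a r : Rw m) : ℤ := if r = a then 1 else 0

/-- The integer matrix. -/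
def Az (m : ℕ) : Matrix (Rw m) (El m) ℤ := fun r e =>
  match e with
  | Sum.inl v => δ (Sum.inl v) r
  | Sum.inr (Sum.inl p) => δ (Sum.inl p.1.1) r - δ (Sum.inl p.1.2) r
  | Sum.inr (Sum.inr (Sum.inl v)) =>
      pf v.2 * δ (Sum.inr (v.1, false)) r + qf v.2 * δ (Sum.inr (v.1, true)) r
  | Sum.inr (Sum.inr (Sum.inr v)) =>
      -(pf v.2 * δ (Sum.inr (v.1, false)) r + qf v.2 * δ (Sum.inr (v.1, true)) r)
        - (δ (Sum.inl (v.1, v.2 + 1)) r - δ (Sum.inl (v.1, v.2 + 2)) r)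

/-- The real matrix. -/
noncomputable def Am (m : ℕ) : Matrix (Rw m) (El m) ℝ := (Az m).map (Int.cast : ℤ → ℝ)

theorem key_inj {m : ℕ} : Function.Injective (key (m := m)) := by
  rintro ⟨⟨a, ha⟩, ⟨b, hb⟩⟩ ⟨⟨c, hc⟩, ⟨d, hd⟩⟩ h
  simp only [key] at h
  simp only [Prod.mk.injEq, Fin.mk.injEq]
  omega

theorem exists_edge {m : ℕ} {u v : Vx m} (h : u ≠ v) :
    ∃ p : Ed m, (p.1.1 = u ∧ p.1.2 = v) ∨ (p.1.1 = v ∧ p.1.2 = u) := by
  rcases lt_trichotomy (key u) (key v) with h1 | h1 | h1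
  · exact ⟨⟨(u, v), h1⟩, Or.inl ⟨rfl, rfl⟩⟩
  · exact absurd (key_inj h1) h
  · exact ⟨⟨(v, u), h1⟩, Or.inr ⟨rfl, rfl⟩⟩

theorem Ed.ne {m : ℕ} (p : Ed m) : p.1.1 ≠ p.1.2 := fun h => by
  have := p.2
  rw [h] at this
  exact lt_irrefl _ this

theorem sum_δ {m : ℕ} (z : Rw m → ℤ) (a : Rw m) : ∑ r, z r * δ a r = z a := by
  simp [δ]

theorem sum_top {m : ℕ} (z : Rw m → ℤ) (v : Vx m) :
    ∑ r, z r * Az m r (Sum.inl v) = z (Sum.inl v) := sum_δ z _

theorem sum_edge {m : ℕ} (z : Rw m → ℤ) (p : Ed m) :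
    ∑ r, z r * Az m r (Sum.inr (Sum.inl p)) = z (Sum.inl p.1.1) - z (Sum.inl p.1.2) := by
  rw [← sum_δ z (Sum.inl p.1.1), ← sum_δ z (Sum.inl p.1.2), ← Finset.sum_sub_distrib]
  exact Finset.sum_congr rfl fun r _ => by simp only [Az]; ring

theorem sum_f {m : ℕ} (z : Rw m → ℤ) (v : Vx m) :
    ∑ r, z r * Az m r (Sum.inr (Sum.inr (Sum.inl v)))
      = pf v.2 * z (Sum.inr (v.1, false)) + qf v.2 * z (Sum.inr (v.1, true)) := by
  rw [← sum_δ z (Sum.inr (v.1, false)), ← sum_δ z (Sum.inr (v.1, true)), Finset.mul_sum,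
    Finset.mul_sum, ← Finset.sum_add_distrib]
  exact Finset.sum_congr rfl fun r _ => by simp only [Az]; ring

theorem sum_g {m : ℕ} (z : Rw m → ℤ) (v : Vx m) :
    ∑ r, z r * Az m r (Sum.inr (Sum.inr (Sum.inr v)))
      = -(pf v.2 * z (Sum.inr (v.1, false)) + qf v.2 * z (Sum.inr (v.1, true)))
        - (z (Sum.inl (v.1, v.2 + 1)) - z (Sum.inl (v.1, v.2 + 2))) := by
  rw [← sum_δ z (Sum.inr (v.1, false)), ← sum_δ z (Sum.inr (v.1, true)), Finset.mul_sum,
    Finset.mul_sum, ← sum_δ z (Sum.inl (v.1, v.2 + 1)), ← sum_δ z (Sum.inl (v.1, v.2 + 2)),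
    ← Finset.sum_add_distrib, ← Finset.sum_neg_distrib, ← Finset.sum_sub_distrib,
    ← Finset.sum_sub_distrib]
  exact Finset.sum_congr rfl fun r _ => by simp only [Az]; ring

/-- Boolean as 0/1. -/
def β (b : Bool) : ℤ := if b then 1 else 0
/-- Boolean as sign. -/
def τ (b : Bool) : ℤ := if b then 1 else -1

theorem sign_choice : ∀ a0 a1 a2 p0 p1 : Bool, ∃ x y : Bool,
    |β a1 - β a2 + τ x * β p0| ≤ 1 ∧ |β a2 - β a0 + τ y * β p1| ≤ 1 ∧
    |β a0 - β a1 - τ x * β p0 - τ y * β p1| ≤ 1 ∧ |τ x * β p0 + τ y * β p1| ≤ 1 := by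
  decide

theorem abs_β (b : Bool) : |β b| ≤ 1 := by cases b <;> simp [β]

theorem abs_τβ (x b : Bool) : |τ x * β b| ≤ 1 := by cases b <;> cases x <;> simp [β, τ]

theorem abs_ββ (x b : Bool) : |β x - β b| ≤ 1 := by cases b <;> cases x <;> simp [β]

theorem τ_cases (b : Bool) : τ b = 1 ∨ τ b = -1 := by cases b <;> simp [τ]

theorem signable (m : ℕ) : Signable (Az m) := by
  classical
  intro S
  choose x y h1 h2 h3 h4 using fun t : Fin m => sign_choice
    (decide ((Sum.inl (t, 0) : Rw m) ∈ S)) (decide ((Sum.inl (t, 1) : Rw m) ∈ S))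
    (decide ((Sum.inl (t, 2) : Rw m) ∈ S)) (decide ((Sum.inr (t, false) : Rw m) ∈ S))
    (decide ((Sum.inr (t, true) : Rw m) ∈ S))
  set ε : Rw m → ℤ := fun r => match r with
    | Sum.inl _ => 1
    | Sum.inr (t, false) => τ (x t)
    | Sum.inr (t, true) => τ (y t) with hε
  refine ⟨ε, ?_, ?_⟩
  · rintro (v | ⟨t, _ | _⟩) -
    · exact Or.inl rfl
    · exact τ_cases _
    · exact τ_cases _
  intro j
  set z : Rw m → ℤ := fun r => ε r * β (decide (r ∈ S)) with hz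
  have hsum : ∑ i ∈ S, ε i * Az m i j = ∑ i, z i * Az m i j := by
    rw [← Finset.sum_subset (Finset.subset_univ S) (f := fun i => z i * Az m i j)]
    · refine Finset.sum_congr rfl fun i hi => ?_
      simp [hz, hi, β]
    · intro i _ hi
      simp [hz, hi, β]
  rw [hsum]
  have hzl : ∀ v, z (Sum.inl v) = β (decide ((Sum.inl v : Rw m) ∈ S)) := fun v => by
    simp [hz, hε]
  have hz0 : ∀ t, z (Sum.inr (t, false)) = τ (x t) * β (decide ((Sum.inr (t, false) : Rw m) ∈ S)) :=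
    fun v => rfl
  have hz1 : ∀ t, z (Sum.inr (t, true)) = τ (y t) * β (decide ((Sum.inr (t, true) : Rw m) ∈ S)) :=
    fun v => rfl
  rcases j with v | p | ⟨t, i⟩ | ⟨t, i⟩
  · rw [sum_top, hzl]; exact abs_β _
  · rw [sum_edge, hzl, hzl]; exact abs_ββ _ _
  · rw [sum_f, hz0, hz1]
    fin_cases i
    · simpa [pf, qf] using abs_τβ _ _
    · simpa [pf, qf] using abs_τβ _ _
    · have := h4 t
      rw [← abs_neg] at this
      convert this using 2
      simp [pf, qf]; ring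
  · rw [sum_g, hz0, hz1, hzl, hzl]
    fin_cases i
    · have := h1 t
      rw [← abs_neg] at this
      convert this using 2
      simp [pf, qf]; ring
    · have := h2 t
      rw [← abs_neg] at this
      convert this using 2
      simp [pf, qf]; ring
    · have := h3 t
      rw [← abs_neg] at this
      convert this using 2
      simp [pf, qf]; ring

theorem Am_tu (m : ℕ) : (Am m).IsTotallyUnimodular := (signable m).isTotallyUnimodular_real

end Pool.R447.HN
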